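import Mathlib

set_option autoImplicit false
set_option linter.unusedSectionVars false

namespace Pool.Agent.H.MP_fc6e23_an

open Filter Topology ContinuousLinearMap
open scoped ENNReal InnerProductSpace

set_option maxHeartbeats 300000

variable {H K : Type} [NormedAddCommGroup H] [InnerProductSpace ℂ H] [CompleteSpace H]
  [NormedAddCommGroup K] [InnerProductSpace ℂ K] [CompleteSpace K] {ι κ : Type}

theorem itw {S : H →L[ℂ] H} {R : K →L[ℂ] K} (hS : IsSelfAdjoint S) (hR : IsSelfAdjoint R)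
    {T : H →L[ℂ] K} (h : R ∘L T = T ∘L S) {f : ℝ → ℝ} (hf : Continuous f) :
    cfc f R ∘L T = T ∘L cfc f S := by
  have h1 : ∀ P : Polynomial ℝ, Polynomial.aeval R P ∘L T = T ∘L Polynomial.aeval S P := fun P => by
    induction P using Polynomial.induction_on with
    | C a => ext; simp [Algebra.algebraMap_eq_smul_one]
    | add p q a b => rw [map_add, map_add, add_comp, comp_add, a, b]
    | monomial n a ih =>
      rw [pow_succ, ← mul_assoc, map_mul, map_mul _ _ Polynomial.X, Polynomial.aeval_X,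
        Polynomial.aeval_X, mul_def, mul_def, comp_assoc, h, ← comp_assoc, ih, comp_assoc]
  refine eq_of_forall_dist_le fun ε hε => ?_
  obtain ⟨M, hM⟩ := ((spectrum.isBounded (𝕜 := ℝ) S).union (spectrum.isBounded R)).exists_norm_le
  obtain ⟨P, hP⟩ := exists_polynomial_near_of_continuousOn (-M) M f hf.continuousOn
    (ε / (2 * ‖T‖ + 1)) (by positivity)
  have a1 : ‖cfc f R - Polynomial.aeval R P‖ ≤ ε / (2 * ‖T‖ + 1) := by
    rw [← cfc_polynomial P R, ← cfc_sub _ _ R]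
    exact norm_cfc_le (by positivity) fun x hx => (abs_sub_comm _ _).trans_le
      (hP x (abs_le.mp (hM x (Or.inr hx)))).le
  have a2 : ‖Polynomial.aeval S P - cfc f S‖ ≤ ε / (2 * ‖T‖ + 1) := by
    rw [← cfc_polynomial P S, ← cfc_sub _ _ S]
    exact norm_cfc_le (by positivity) fun x hx => (hP x (abs_le.mp (hM x (Or.inl hx)))).le
  rw [dist_eq_norm, show cfc f R ∘L T - T ∘L cfc f S = (cfc f R - Polynomial.aeval R P) ∘L T +
    T ∘L (Polynomial.aeval S P - cfc f S) by rw [sub_comp, comp_sub, h1]; abel]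
  refine (norm_add_le_of_le (opNorm_comp_le _ _) (opNorm_comp_le _ _)).trans ?_
  calc _ ≤ ε / (2 * ‖T‖ + 1) * ‖T‖ + ‖T‖ * (ε / (2 * ‖T‖ + 1)) := by gcongr
    _ = ε * (2 * ‖T‖ / (2 * ‖T‖ + 1)) := by ring
    _ ≤ _ := mul_le_of_le_one_right hε.le (div_le_one_of_le₀ (by linarith) (by positivity))

theorem eig {R : K →L[ℂ] K} (hR : IsSelfAdjoint R) {v : K} {a : ℝ} (h : R v = (a : ℂ) • v)
    {f : ℝ → ℝ} (hf : Continuous f) : cfc f R v = (f a : ℂ) • v := by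
  have := itw (S := algebraMap ℝ (ℂ →L[ℂ] ℂ) a) (cfc_predicate_algebraMap a) hR
    (T := toSpanSingleton ℂ v) (by ext; simp [h, Algebra.algebraMap_eq_smul_one]) hf
  rw [cfc_algebraMap] at this
  simpa [Algebra.algebraMap_eq_smul_one] using congr($this 1)

noncomputable def ip (S : H →L[ℂ] H) (e : H) : ℝ := (⟪e, S e⟫_ℂ).re

theorem ip_nn {S : H →L[ℂ] H} (h : 0 ≤ S) (e : H) : 0 ≤ ip S e :=
  ((nonneg_iff_isPositive S).mp h).re_inner_nonneg_right e

theorem ip_add (S R : H →L[ℂ] H) (e : H) : ip (S + R) e = ip S e + ip R e := by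
  simp [ip]

theorem ip_sub (S R : H →L[ℂ] H) (e : H) : ip (S - R) e = ip S e - ip R e := by
  simp [ip]

theorem ip_smul (c : ℝ) (S : H →L[ℂ] H) (e : H) : ip (c • S) e = c * ip S e := by
  simp [ip, ← Complex.coe_smul]

theorem ip_mono {S R : H →L[ℂ] H} (h : S ≤ R) (e : H) : ip S e ≤ ip R e := by
  have := ip_nn (sub_nonneg.mpr h) e
  rwa [ip_sub, sub_nonneg] at this

theorem ip_sq (y : H →L[ℂ] K) (e : H) : ip (adjoint y ∘L y) e = ‖y e‖ ^ 2 := by
  rw [ip, comp_apply, adjoint_inner_right, inner_self_eq_norm_sq_to_K]; norm_cast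

theorem ip_conj (y : H →L[ℂ] K) (S : K →L[ℂ] K) (e : H) : ip (adjoint y ∘L S ∘L y) e = ip S (y e) := by
  rw [ip, comp_apply, adjoint_inner_right]; rfl

theorem ip_eig {S : H →L[ℂ] H} {e : H} {a : ℝ} (h : S e = (a : ℂ) • e) : ip S e = a * ‖e‖ ^ 2 := by
  rw [ip, h, inner_smul_right, inner_self_eq_norm_sq_to_K, Complex.re_ofReal_mul]; norm_cast

theorem pos (y : H →L[ℂ] K) : 0 ≤ adjoint y ∘L y :=
  (nonneg_iff_isPositive _).mpr (isPositive_adjoint_comp_self y)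

noncomputable def tp (b : ι → H) (S : H →L[ℂ] H) : ℝ≥0∞ := ∑' i, ENNReal.ofReal (ip S (b i))

theorem pars (c : HilbertBasis κ ℂ K) (v : K) : HasSum (fun j => ‖⟪c j, v⟫_ℂ‖ ^ 2) (‖v‖ ^ 2) := by
  simpa [c.repr_apply_apply] using lp.hasSum_norm (p := 2) (by simp) (c.repr v)

theorem pars' (c : HilbertBasis κ ℂ K) (v : K) :
    ENNReal.ofReal (‖v‖ ^ 2) = ∑' j, ENNReal.ofReal (‖⟪c j, v⟫_ℂ‖ ^ 2) := by
  rw [← ENNReal.ofReal_tsum_of_nonneg (fun _ => by positivity) (pars c v).summable, (pars c v).tsum_eq]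

theorem tp_comm (b : HilbertBasis ι ℂ H) (c : HilbertBasis κ ℂ K) (y : H →L[ℂ] K) :
    tp b (adjoint y ∘L y) = tp c (y ∘L adjoint y) := by
  conv_rhs => rw [← adjoint_adjoint y, adjoint_adjoint (adjoint y)]
  simp only [tp, ip_sq]
  rw [tsum_congr fun i => pars' c _, ENNReal.tsum_comm]
  refine tsum_congr fun j => ?_
  rw [pars' b]
  exact tsum_congr fun i => by rw [adjoint_inner_right, norm_inner_symm]

theorem sq_ex {S : H →L[ℂ] H} (h : 0 ≤ S) : ∃ R : H →L[ℂ] H, 0 ≤ R ∧ adjoint R = R ∧ R ∘L R = S :=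
  ⟨CFC.sqrt S, CFC.sqrt_nonneg S, (CFC.sqrt_nonneg S).isSelfAdjoint.adjoint_eq,
    CFC.sqrt_mul_sqrt_self S⟩

theorem tp_ind (b : HilbertBasis ι ℂ H) (c : HilbertBasis κ ℂ H) {S : H →L[ℂ] H} (h : 0 ≤ S) :
    tp b S = tp c S := by
  obtain ⟨R, -, a, rfl⟩ := sq_ex h
  simpa [a] using tp_comm b c R

theorem ip_zero {S : H →L[ℂ] H} (h : 0 ≤ S) {e : H} (z : ip S e = 0) : S e = 0 := by
  obtain ⟨R, -, a, rfl⟩ := sq_ex h
  have := ip_sq R e
  rw [a, z] at this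
  simp [norm_eq_zero.mp (pow_eq_zero_iff two_ne_zero |>.mp this.symm)]

variable {L : Type} [NormedAddCommGroup L] [InnerProductSpace ℂ L] [CompleteSpace L]

structure Blk (i1 : H →L[ℂ] L) (i2 : K →L[ℂ] L) : Prop where
  a11 : ∀ x, adjoint i1 (i1 x) = x
  a12 : ∀ x, adjoint i1 (i2 x) = 0
  a21 : ∀ x, adjoint i2 (i1 x) = 0
  a22 : ∀ x, adjoint i2 (i2 x) = x
  res : ∀ v, i1 (adjoint i1 v) + i2 (adjoint i2 v) = v

variable (H K) in
theorem exBlk : ∃ (L : Type) (_ : NormedAddCommGroup L) (_ : InnerProductSpace ℂ L)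
    (_ : CompleteSpace L) (i1 : H →L[ℂ] L) (i2 : K →L[ℂ] L), Blk i1 i2 := by
  let e := (WithLp.prodContinuousLinearEquiv 2 ℂ H K).symm.toContinuousLinearMap
  have a1 : ∀ v, adjoint (e ∘L inl ℂ H K) v = v.fst := fun v =>
    ext_inner_left ℂ fun w => by rw [adjoint_inner_right]; simp [e]
  have a2 : ∀ v, adjoint (e ∘L inr ℂ H K) v = v.snd := fun v =>
    ext_inner_left ℂ fun w => by rw [adjoint_inner_right]; simp [e]
  exact ⟨_, _, _, inferInstance, e ∘L inl ℂ H K, e ∘L inr ℂ H K, fun _ => a1 _, fun _ => a1 _,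
    fun _ => a2 _, fun _ => a2 _, fun v => by
      rw [a1, a2]; exact (WithLp.ofLp_injective 2) (by simp [e]; rfl)⟩

theorem Blk.tr {i1 : H →L[ℂ] L} {i2 : K →L[ℂ] L} (B : Blk i1 i2) (b : HilbertBasis ι ℂ H)
    (c : HilbertBasis κ ℂ K) {μ : Type} (d : HilbertBasis μ ℂ L) {S : L →L[ℂ] L}
    (h : 0 ≤ S) : tp d S = tp (i1 ∘ b) S + tp (i2 ∘ c) S := by
  obtain ⟨R, -, a, rfl⟩ := sq_ex h
  have e1 := tp_comm b d (R ∘L i1)
  have e2 := tp_comm c d (R ∘L i2)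
  have e : R ∘L R = (R ∘L i1) ∘L adjoint (R ∘L i1) + (R ∘L i2) ∘L adjoint (R ∘L i2) := by
    ext1 v
    simp [a, ← map_add, B.res]
  have p1 := pos (adjoint (R ∘L i1))
  have p2 := pos (adjoint (R ∘L i2))
  rw [adjoint_adjoint] at p1 p2
  calc _ = tp d ((R ∘L i1) ∘L adjoint (R ∘L i1)) + tp d ((R ∘L i2) ∘L adjoint (R ∘L i2)) := by
        rw [e, tp, tp, tp, ← ENNReal.tsum_add]
        exact tsum_congr fun i => by rw [ip_add, ENNReal.ofReal_add (ip_nn p1 _) (ip_nn p2 _)]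
    _ = _ := by
        rw [← e1, ← e2]
        simp only [tp, adjoint_comp, a, comp_assoc, Function.comp_apply, ← ip_conj]

noncomputable def Q (b : ι → H) (p : ℝ) (x : H →L[ℂ] K) : ℝ≥0∞ :=
  tp b (cfc (fun t : ℝ => t ^ (p / 2)) (adjoint x ∘L x))

theorem rp_nn {S : H →L[ℂ] H} (h : 0 ≤ S) (q : ℝ) : 0 ≤ cfc (fun t : ℝ => t ^ q) S :=
  cfc_nonneg fun _ ht => Real.rpow_nonneg (spectrum_nonneg_of_nonneg h ht) q

theorem Q_ind (b : HilbertBasis ι ℂ H) (c : HilbertBasis κ ℂ H) (p : ℝ) (x : H →L[ℂ] K) :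
    Q b p x = Q c p x := tp_ind b c (rp_nn (pos x) _)

theorem neg0 {v : H} (h : v = -v) : v = 0 :=
  (smul_eq_zero.mp (show (2 : ℂ) • v = 0 by rw [two_smul, add_eq_zero_iff_eq_neg]; exact h)).resolve_left
    two_ne_zero

theorem ZZ_sa (i1 : K →L[ℂ] L) (i2 : H →L[ℂ] L) (x : H →L[ℂ] K) :
    IsSelfAdjoint (i1 ∘L x ∘L adjoint i2 + i2 ∘L adjoint x ∘L adjoint i1) := by
  rw [isSelfAdjoint_iff']; simp [add_comm, comp_assoc]

theorem Q_adj (b : HilbertBasis ι ℂ H) (c : HilbertBasis κ ℂ K) {p : ℝ} (hp : 0 < p)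
    (x : H →L[ℂ] K) : Q c p (adjoint x) = Q b p x := by
  obtain ⟨L, _, _, _, i1, i2, a11, a12, a21, a22, res⟩ := exBlk K H
  have z := ZZ_sa i1 i2 x
  obtain ⟨Z, hZ⟩ : ∃ Z, Z = i1 ∘L x ∘L adjoint i2 + i2 ∘L adjoint x ∘L adjoint i1 := ⟨_, rfl⟩
  rw [← hZ] at z
  obtain ⟨h, hh⟩ : ∃ h : ℝ → ℝ, h = fun t => max t 0 ^ (p / 2) - max (-t) 0 ^ (p / 2) := ⟨_, rfl⟩
  have cp := Real.continuous_rpow_const (show 0 ≤ p / 2 by positivity)
  have hc : Continuous h := hh ▸ (cp.comp (by fun_prop)).sub (cp.comp (by fun_prop))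
  obtain ⟨G, hG⟩ : ∃ G, G = cfc h Z := ⟨_, rfl⟩
  have g : adjoint G = G := (hG ▸ cfc_predicate h Z : IsSelfAdjoint G).adjoint_eq
  have o := itw z.neg z (T := i1 ∘L adjoint i1 - i2 ∘L adjoint i2)
    (by ext1 v; simp [hZ, a11, a12, a21, a22]; abel) hc
  rw [← cfc_comp_neg h Z, show (fun t => h (-t)) = fun t => -h t by ext; simp [hh], cfc_neg,
    ← hG] at o
  have o1 : ∀ v, adjoint i1 (G (i1 v)) = 0 := fun v =>
    neg0 (by simpa [a11, a12, a21] using congr(adjoint i1 ($o (i1 v))))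
  have o2 : ∀ v, adjoint i2 (G (i2 v)) = 0 := fun v =>
    neg0 (by simpa [a22, a12, a21] using congr(adjoint i2 ($o (i2 v))).symm)
  have s : G ∘L G = cfc (fun t : ℝ => t ^ (p / 2)) (Z ∘L Z) := by
    rw [← mul_def, ← mul_def, ← sq Z, ← cfc_comp_pow _ 2 Z cp.continuousOn, hG, ← cfc_mul h h]
    congr 1
    ext t
    rw [← sq_abs, sq, Real.mul_rpow (abs_nonneg _) (abs_nonneg _), hh]
    rcases le_total t 0 with a | a <;> simp [a, abs_of_nonneg, abs_of_nonpos, Real.zero_rpow, hp.ne']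
  have z2 : IsSelfAdjoint (Z ∘L Z) := by rw [← mul_def, ← sq]; exact z.pow 2
  have s1 := itw (pos (adjoint x)).isSelfAdjoint z2 (T := i1)
    (by ext1; simp [hZ, a11, a12, a21, a22]) cp
  have s2 := itw (pos x).isSelfAdjoint z2 (T := i2) (by ext1; simp [hZ, a11, a12, a21, a22]) cp
  rw [← s] at s1 s2
  have := tp_comm b c (adjoint i1 ∘L G ∘L i2)
  rw [adjoint_comp, adjoint_comp, adjoint_adjoint, g] at this
  refine (congrArg (tp c) (ContinuousLinearMap.ext fun v => ?_)).trans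
    (this.symm.trans (congrArg (tp b) (ContinuousLinearMap.ext fun v => ?_)))
  · have := congr(adjoint i1 ($s1 v))
    simp only [comp_apply, a11] at this ⊢
    rw [← this, ← res (G (i1 v)), o1, map_zero, zero_add, a22]
  · have := congr(adjoint i2 ($s2 v))
    simp only [comp_apply, a22] at this ⊢
    rw [← this, ← res (G (i2 v)), o2, map_zero, add_zero, a11]

theorem gm (x : H →L[ℂ] K) {P : H →L[ℂ] H} {R : K →L[ℂ] K} (hP : 0 ≤ P) (hR : 0 ≤ R)
    (h1 : P ∘L P = adjoint x ∘L x) (h2 : R ∘L R = x ∘L adjoint x) (e : H) (f : K) :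
    2 * (⟪f, x e⟫_ℂ).re ≤ ip P e + ip R f := by
  obtain ⟨L, _, _, _, i1, i2, a11, a12, a21, a22, res⟩ := exBlk K H
  have z := ZZ_sa i1 i2 x
  obtain ⟨Z, hZ⟩ : ∃ Z, Z = i1 ∘L x ∘L adjoint i2 + i2 ∘L adjoint x ∘L adjoint i1 := ⟨_, rfl⟩
  rw [← hZ] at z
  have p : 0 ≤ i1 ∘L R ∘L adjoint i1 + i2 ∘L P ∘L adjoint i2 := add_nonneg
    ((nonneg_iff_isPositive _).mpr (((nonneg_iff_isPositive _).mp hR).conj_adjoint i1))
    ((nonneg_iff_isPositive _).mpr (((nonneg_iff_isPositive _).mp hP).conj_adjoint i2))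
  have e1 : CFC.abs Z = i1 ∘L R ∘L adjoint i1 + i2 ∘L P ∘L adjoint i2 := by
    refine CFC.sqrt_unique ?_ p
    rw [z.star_eq]
    ext1 v
    have b1 := fun v => congr($h1 v)
    have b2 := fun v => congr($h2 v)
    simp at b1 b2
    simp [hZ, a11, a12, a21, a22, b1, b2]
  have := ip_nn (CFC.abs_sub_self Z ▸ nsmul_nonneg (CFC.negPart_nonneg Z) 2) (i1 f + i2 e)
  rw [ip_sub, e1, hZ, sub_nonneg] at this
  simp [ip, a11, a12, a21, a22, ← adjoint_inner_right i1, ← adjoint_inner_right i2,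
    adjoint_inner_right x] at this ⊢
  rw [← inner_conj_symm (x e), Complex.conj_re] at this
  linarith

end Pool.Agent.H.MP_fc6e23_an
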