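import Pool.Agent.H.MP_fc6e23_an.A

set_option autoImplicit false
set_option linter.unusedSectionVars false

namespace Pool.Agent.H.MP_fc6e23_an

open Filter Topology ContinuousLinearMap
open scoped ENNReal InnerProductSpace

set_option maxHeartbeats 300000

variable {H K : Type} [NormedAddCommGroup H] [InnerProductSpace ℂ H] [CompleteSpace H]
  [NormedAddCommGroup K] [InnerProductSpace ℂ K] [CompleteSpace K] {ι κ : Type}

theorem tan {q a t : ℝ} (hq : 0 < q) (h1 : q ≠ 1) (ha : 0 < a) (ht : 0 ≤ t) (h : t ≠ a) :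
    0 < (q - 1) * (t ^ q - a ^ q - q * a ^ (q - 1) * (t - a)) := by
  have s1 : -1 ≤ t / a - 1 := by linarith [div_nonneg ht ha.le]
  have s2 : t / a - 1 ≠ 0 := by rw [sub_ne_zero, Ne, div_eq_one_iff_eq ha.ne']; exact h
  have e : t ^ q - a ^ q - q * a ^ (q - 1) * (t - a) =
      a ^ q * ((1 + (t / a - 1)) ^ q - (1 + q * (t / a - 1))) := by
    rw [add_sub_cancel, Real.div_rpow ht ha.le, Real.rpow_sub_one ha.ne']
    have := (Real.rpow_pos_of_pos ha q).ne'
    field_simp; ring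
  have := Real.rpow_pos_of_pos ha q
  rw [e]
  rcases h1.lt_or_gt with c | c
  · exact mul_pos_of_neg_of_neg (by linarith) (mul_neg_of_pos_of_neg this
      (sub_neg.mpr (rpow_one_add_lt_one_add_mul_self s1 s2 hq c)))
  · exact mul_pos (by linarith) (mul_pos this (sub_pos.mpr (one_add_mul_self_lt_rpow_one_add s1 s2 c)))

theorem tan' {q a t : ℝ} (hq : 0 < q) (ha : 0 < a) (ht : 0 ≤ t) :
    0 ≤ (q - 1) * (t ^ q - a ^ q - q * a ^ (q - 1) * (t - a)) := by
  by_cases h1 : q = 1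
  · simp [h1]
  by_cases h : t = a
  · simp [h]
  exact (tan hq h1 ha ht h).le

theorem mid {q a b : ℝ} (hq : 0 < q) (ha : 0 ≤ a) (hb : 0 ≤ b) :
    0 ≤ (q - 1) * (a ^ q + b ^ q - 2 * ((a + b) / 2) ^ q) := by
  rcases (add_nonneg ha hb).eq_or_lt with h | h
  · obtain rfl : a = 0 := by linarith
    obtain rfl : b = 0 := by linarith
    simp [hq.ne']
  · linarith [tan' hq (half_pos h) ha, tan' hq (half_pos h) hb]

theorem ip_one {e : H} (he : ‖e‖ = 1) (c : ℝ) : ip (algebraMap ℝ _ c) e = c := by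
  rw [ip_eig (a := c) (by simp [Algebra.algebraMap_eq_smul_one]), he]; simp

theorem jen {Y : H →L[ℂ] H} (hY : 0 ≤ Y) {e : H} (he : ‖e‖ = 1) {q : ℝ} (hq : 0 < q) :
    0 ≤ (q - 1) * (ip (cfc (fun t : ℝ => t ^ q) Y) e - ip Y e ^ q) ∧
    (q ≠ 1 → ip (cfc (fun t : ℝ => t ^ q) Y) e = ip Y e ^ q → Y e = (ip Y e : ℂ) • e) := by
  have cp := Real.continuous_rpow_const hq.le
  have sa := hY.isSelfAdjoint
  rcases (ip_nn hY e).eq_or_lt with h | h
  · have z : Y e = ((0 : ℝ) : ℂ) • e := by simpa using ip_zero hY h.symm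
    rw [ip_eig (eig sa z cp), ← h]
    exact ⟨by simp [hq.ne'], fun _ _ => z⟩
  obtain ⟨a, ha⟩ : ∃ a, a = ip Y e := ⟨_, rfl⟩
  rw [← ha] at h ⊢
  obtain ⟨g, hg⟩ : ∃ g : ℝ → ℝ,
    g = fun t => (q - 1) * (t ^ q - a ^ q - q * a ^ (q - 1) * (t - a)) := ⟨_, rfl⟩
  have gc : Continuous g := by rw [hg]; fun_prop (disch := exact fun _ => Or.inr hq.le)
  have g0 : ∀ t ∈ spectrum ℝ Y, 0 ≤ g t := fun t ht =>
    hg ▸ tan' hq h (spectrum_nonneg_of_nonneg hY ht)
  have e1 : ip (cfc g Y) e = (q - 1) * (ip (cfc (fun t : ℝ => t ^ q) Y) e - a ^ q) := by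
    rw [hg, cfc_const_mul _ _ Y (by fun_prop (disch := exact fun _ _ => Or.inr hq.le)),
      cfc_sub _ _ Y (by fun_prop (disch := exact fun _ _ => Or.inr hq.le)), cfc_sub _ _ Y cp.continuousOn,
      cfc_const_mul .., cfc_sub .., cfc_const _ Y, cfc_const _ Y, cfc_id' ℝ Y, ip_smul, ip_sub,
      ip_sub, ip_smul, ip_sub, ip_one he, ip_one he, ← ha]
    ring
  refine ⟨e1 ▸ ip_nn (cfc_nonneg g0) e, fun h1 z => ?_⟩
  rw [z, sub_self, mul_zero] at e1
  have s : IsSelfAdjoint (cfc (fun t : ℝ => t - a) Y) := cfc_predicate _ _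
  have : ‖cfc (fun t : ℝ => t - a) Y e‖ ^ 2 ≤ 0 := le_of_forall_pos_le_add fun ε hε => by
    obtain ⟨C, hC⟩ := ((spectrum.isCompact (𝕜 := ℝ) Y).inter_right (isClosed_le
      (f := fun _ => ε) (g := fun t => (t - a) * (t - a)) (by fun_prop)
      (by fun_prop))).exists_bound_of_continuousOn (f := fun t => (t - a) * (t - a) / g t)
      (ContinuousOn.div (by fun_prop) gc.continuousOn fun t ht => ne_of_gt (hg ▸ tan hq h1 h
        (spectrum_nonneg_of_nonneg hY ht.1) (by rintro rfl; simpa using hε.trans_le ht.2)))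
    rw [← ip_sq, s.adjoint_eq, ← mul_def, ← cfc_mul ..]
    refine (ip_mono (cfc_mono (g := fun t => ε + |C| * g t) fun t ht => ?_) e).trans ?_
    · have := mul_nonneg (abs_nonneg C) (g0 t ht)
      by_cases c : ε ≤ (t - a) * (t - a)
      · have p : 0 < g t := hg ▸ tan hq h1 h (spectrum_nonneg_of_nonneg hY ht)
          (by rintro rfl; simpa using hε.trans_le c)
        linarith [(div_le_iff₀ p).mp ((le_abs_self _).trans ((hC t ⟨ht, c⟩).trans (le_abs_self C)))]
      · linarith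
    · rw [cfc_add .., cfc_const_mul .., cfc_const _ Y, ip_add, ip_smul, e1, ip_one he]; simp
  rw [cfc_sub .., cfc_id' ℝ Y, cfc_const _ Y] at this
  simpa [Algebra.algebraMap_eq_smul_one, sub_eq_zero] using this

theorem Q_two (b : ι → H) (x : H →L[ℂ] K) : Q b 2 x = ∑' i, ENNReal.ofReal (‖x (b i)‖ ^ 2) := by
  simp [Q, tp, cfc_id' ℝ _ (pos x).isSelfAdjoint, ip_sq]

theorem jge {b : ι → H} (hb : ∀ i, ‖b i‖ = 1) {p : ℝ} (hp : 2 ≤ p) (x : H →L[ℂ] K) :
    ∑' i, ENNReal.ofReal ((‖x (b i)‖ ^ 2) ^ (p / 2)) ≤ Q b p x := by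
  rcases hp.eq_or_lt with rfl | hp
  · simp [Q_two]
  refine ENNReal.tsum_le_tsum fun i => ENNReal.ofReal_le_ofReal ?_
  have := (jen (pos x) (hb i) (q := p / 2) (by linarith)).1
  rwa [ip_sq, mul_nonneg_iff_of_pos_left (by linarith), sub_nonneg] at this

theorem jle {b : ι → H} (hb : ∀ i, ‖b i‖ = 1) {p : ℝ} (h0 : 0 < p) (hp : p ≤ 2) (x : H →L[ℂ] K) :
    Q b p x ≤ ∑' i, ENNReal.ofReal ((‖x (b i)‖ ^ 2) ^ (p / 2)) := by
  rcases hp.eq_or_lt with rfl | hp
  · simp [Q_two]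
  refine ENNReal.tsum_le_tsum fun i => ENNReal.ofReal_le_ofReal ?_
  have := (jen (pos x) (hb i) (q := p / 2) (by linarith)).1
  rw [ip_sq] at this
  nlinarith

theorem op_le (b : HilbertBasis ι ℂ H) (Z : H →L[ℂ] K) : ENNReal.ofReal (‖Z‖ ^ 2) ≤ Q b 2 Z := by
  by_cases h : Q b 2 Z = ⊤
  · simp [h]
  rw [ENNReal.ofReal_le_iff_le_toReal h, ← Real.le_sqrt (norm_nonneg _) ENNReal.toReal_nonneg,
    ← LinearIsometryEquiv.norm_map adjoint]
  refine opNorm_le_bound _ (by positivity) fun k => ?_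
  rw [← sq_le_sq₀ (by positivity) (by positivity), mul_pow, Real.sq_sqrt ENNReal.toReal_nonneg,
    ← ENNReal.ofReal_le_ofReal_iff (by positivity), ENNReal.ofReal_mul ENNReal.toReal_nonneg,
    ENNReal.ofReal_toReal h, pars' b, Q_two, ← ENNReal.tsum_mul_right]
  refine ENNReal.tsum_le_tsum fun i => ?_
  rw [← ENNReal.ofReal_mul (by positivity), adjoint_inner_right, ← mul_pow]
  gcongr
  exact norm_inner_le_norm _ _

theorem hs_cpt (b : HilbertBasis ι ℂ H) {Z : H →L[ℂ] K} (h : Q b 2 Z ≠ ⊤) : IsCompactOperator Z := by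
  classical
  refine isCompactOperator_of_tendsto (l := atTop)
    (F := fun s : Finset ι => ∑ i ∈ s, InnerProductSpace.rankOne ℂ (Z (b i)) (b i)) ?_
    (.of_forall fun s => (compactOperator (RingHom.id ℂ) H K).sum_mem fun i _ =>
      (isCompactOperator_of_locallyCompactSpace_dom (innerSL ℂ (b i))).clm_comp (toSpanSingleton ℂ _))
  rw [Q_two] at h
  rw [tendsto_iff_norm_sub_tendsto_zero]
  have t := (Real.continuous_sqrt.tendsto 0).comp ((ENNReal.tendsto_toReal ENNReal.zero_ne_top).comp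
    (ENNReal.tendsto_tsum_compl_atTop_zero h))
  rw [Real.sqrt_zero] at t
  refine squeeze_zero (fun _ => norm_nonneg _) (fun s => Real.le_sqrt_of_sq_le ?_) t
  refine (ENNReal.ofReal_le_iff_le_toReal (ne_top_of_le_ne_top h (ENNReal.tsum_comp_le_tsum_of_injective
    Subtype.val_injective _))).mp ((op_le b _).trans_eq ?_)
  rw [Q_two]
  refine Eq.trans (tsum_congr fun i => ?_) (tsum_subtype {i | i ∉ s} fun i =>
    ENNReal.ofReal (‖Z (b i)‖ ^ 2)).symm
  have := orthonormal_iff_ite.mp b.orthonormal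
  by_cases c : i ∈ s <;> simp [this, c]

theorem cpt (b : HilbertBasis ι ℂ H) {p : ℝ} (hp : 0 < p) {A : H →L[ℂ] K} (h : Q b p A ≠ ⊤) :
    IsCompactOperator A := by
  obtain ⟨S, hS⟩ : ∃ S, S = adjoint A ∘L A := ⟨_, rfl⟩
  have S0 : 0 ≤ S := hS ▸ pos A
  have cp := Real.continuous_rpow_const (show 0 ≤ p / 4 by positivity)
  have r : IsSelfAdjoint (cfc (fun t : ℝ => t ^ (p / 4)) S) := cfc_predicate _ _
  have c : IsCompactOperator (cfc (fun t : ℝ => t ^ (p / 4)) S : H →L[ℂ] H) := hs_cpt b (by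
    convert h using 1
    rw [Q_two, Q, tp, ← hS]
    refine tsum_congr fun i => ?_
    rw [← ip_sq, r.adjoint_eq, ← mul_def, ← cfc_mul _ _ S cp.continuousOn cp.continuousOn]
    congr 2
    exact cfc_congr fun t ht => by
      beta_reduce
      rw [← Real.rpow_add' (spectrum_nonneg_of_nonneg S0 ht) (by positivity)]; ring_nf)
  refine isClosed_setOfPred_isCompactOperator.closure_subset (Metric.mem_closure_iff.mpr fun ε hε => ?_)
  obtain ⟨δ, d0, d1⟩ : ∃ δ, 0 < δ ∧ δ < ε * ε := ⟨ε * ε / 2, by positivity, by nlinarith⟩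
  have m : ∀ t, 0 < max t δ := fun t => lt_max_of_lt_right d0
  have c1 : Continuous fun t : ℝ => δ / max t δ := by fun_prop (disch := exact fun t => (m t).ne')
  have c2 : Continuous fun t : ℝ => (1 - δ / max t δ) * max t δ ^ (-(p / 4)) :=
    (continuous_const.sub c1).mul (Continuous.rpow_const (by fun_prop) fun t => Or.inl (m t).ne')
  refine ⟨A ∘L cfc (fun t : ℝ => (1 - δ / max t δ) * max t δ ^ (-(p / 4))) S ∘L
    cfc (fun t : ℝ => t ^ (p / 4)) S, (c.clm_comp _).clm_comp A, ?_⟩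
  have s : IsSelfAdjoint (cfc (fun t : ℝ => δ / max t δ) S) := cfc_predicate _ _
  have e : A - A ∘L cfc (fun t : ℝ => (1 - δ / max t δ) * max t δ ^ (-(p / 4))) S ∘L
      cfc (fun t : ℝ => t ^ (p / 4)) S = A ∘L cfc (fun t : ℝ => δ / max t δ) S := by
    rw [← mul_def, ← cfc_mul _ _ S c2.continuousOn cp.continuousOn,
      cfc_congr (g := fun t => 1 - δ / max t δ) fun t _ => by
        rcases le_total t δ with a | a
        · simp [a, d0.ne']
        · simp only [max_eq_left a]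
          rw [mul_assoc, ← Real.rpow_add (d0.trans_le a)]; simp,
      cfc_sub _ _ S (by fun_prop) c1.continuousOn, cfc_const_one ℝ S, comp_sub]
    exact sub_sub_cancel _ _
  rw [dist_eq_norm, e, mul_self_lt_mul_self_iff (norm_nonneg _) hε.le, ← norm_adjoint_comp_self,
    adjoint_comp, s.adjoint_eq, comp_assoc, ← comp_assoc (adjoint A), ← hS, ← mul_def, ← mul_def]
  nth_rw 2 [← cfc_id' ℝ S]
  rw [← cfc_mul _ _ S (by fun_prop) c1.continuousOn,
    ← cfc_mul _ (fun x => x * (δ / max x δ)) S c1.continuousOn (continuous_id'.mul c1).continuousOn]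
  refine (norm_cfc_le d0.le fun t ht => ?_).trans_lt d1
  have t0 := spectrum_nonneg_of_nonneg S0 ht
  have := m t
  rw [Real.norm_of_nonneg (by positivity)]
  calc _ ≤ δ / max t δ * (max t δ * 1) := by
        gcongr
        · exact le_max_left _ _
        · exact div_le_one_of_le₀ (le_max_right _ _) this.le
    _ = _ := by field_simp

theorem eb {S : H →L[ℂ] H} (hS : 0 ≤ S) (hc : IsCompactOperator S) :
    ∃ (w : Type) (c : HilbertBasis w ℂ H), ∀ i, S (c i) = (ip S (c i) : ℂ) • c i := by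
  have sy := hS.isSelfAdjoint.isSymmetric
  have : ∀ μ : ℂ, CompleteSpace (Module.End.eigenspace (S : H →ₗ[ℂ] H) μ) := fun μ => by
    rw [Module.End.eigenspace_def]
    exact (S - μ • 1).isClosed_ker.completeSpace_coe
  choose w b _ using fun μ : ℂ => exists_hilbertBasis ℂ (Module.End.eigenspace (S : H →ₗ[ℂ] H) μ)
  have o := sy.orthogonalFamily_eigenspaces.orthonormal_sigma_orthonormal fun μ => (b μ).orthonormal
  refine ⟨_, .mkOfOrthogonalEqBot o ?_, fun i => ?_⟩
  · rw [eq_bot_iff, ← orthogonalComplement_iSup_eigenspaces_eq_bot hc sy, ← Submodule.iInf_orthogonal]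
    intro x hx
    refine (Submodule.mem_iInf _).mpr fun μ => (Submodule.mem_orthogonal' _ _).mpr fun u hu => ?_
    refine (((b μ).hasSum_repr ⟨u, hu⟩).mapL
      (innerSL ℂ x ∘L (Submodule.subtypeL _))).unique ?_
    convert hasSum_zero with i
    simpa using Or.inr ((Submodule.mem_orthogonal' _ _).mp hx _ (Submodule.subset_span ⟨⟨μ, i⟩, rfl⟩))
  · rw [HilbertBasis.coe_mkOfOrthogonalEqBot]
    have e : S (b i.1 i.2) = i.1 • (b i.1 i.2 : H) := Module.End.mem_eigenspace_iff.mp (b i.1 i.2).2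
    have n : ‖(b i.1 i.2 : H)‖ = 1 := o.1 i
    have := sy.conj_eigenvalue_eq_self (μ := i.1) (Module.End.hasEigenvalue_of_hasEigenvector
      ⟨(b i.1 i.2).2, by rw [← norm_ne_zero_iff, n]; exact one_ne_zero⟩)
    replace e := e.trans (congrArg (· • _) (Complex.conj_eq_iff_re.mp this).symm)
    change S (b i.1 i.2) = (ip S (b i.1 i.2) : ℂ) • (b i.1 i.2 : H)
    rw [ip_eig e, n, one_pow, mul_one]; exact e

theorem Q_eb {A : H →L[ℂ] K} (hc : IsCompactOperator (adjoint A ∘L A)) :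
    ∃ (w : Type) (c : HilbertBasis w ℂ H), ∀ p, 0 < p →
      Q c p A = ∑' i, ENNReal.ofReal ((‖A (c i)‖ ^ 2) ^ (p / 2)) := by
  obtain ⟨w, c, h⟩ := eb (pos A) hc
  refine ⟨w, c, fun p hp => tsum_congr fun i => ?_⟩
  rw [ip_eig (eig (pos A).isSelfAdjoint (h i) (Real.continuous_rpow_const (by positivity))),
    c.orthonormal.1, ip_sq]
  simp

end Pool.Agent.H.MP_fc6e23_an
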