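import Pool.Agent.H.MP_fc6e23_an.B

set_option autoImplicit false
set_option linter.unusedSectionVars false

namespace Pool.Agent.H.MP_fc6e23_an

open Filter Topology ContinuousLinearMap
open scoped ENNReal InnerProductSpace

set_option maxHeartbeats 300000

variable {H K : Type} [NormedAddCommGroup H] [InnerProductSpace ℂ H] [CompleteSpace H]
  [NormedAddCommGroup K] [InnerProductSpace ℂ K] [CompleteSpace K] {ι κ : Type}

theorem bext (b : HilbertBasis ι ℂ H) {T : H →L[ℂ] K} (h : ∀ i, T (b i) = 0) : T = 0 :=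
  ContinuousLinearMap.ext fun x => ((b.hasSum_repr x).mapL T).unique (by simp [h])

theorem cc {A : H →L[ℂ] K} (h : IsCompactOperator A) : IsCompactOperator (adjoint A ∘L A) :=
  h.clm_comp (adjoint A)

theorem col (b : HilbertBasis ι ℂ H) {p : ℝ} (hp : 0 < p) {A B : H →L[ℂ] K} (hA : Q b p A ≠ ⊤)
    (hB : Q b p B ≠ ⊤) : ∃ (w : Type) (c : HilbertBasis w ℂ H) (t : ℝ≥0∞),
    t = ∑' i, ENNReal.ofReal ((‖A (c i)‖ ^ 2 + ‖B (c i)‖ ^ 2) ^ (p / 2)) ∧
    (p ≤ 2 → t ≤ Q b p A + Q b p B) ∧ (2 ≤ p → Q b p A + Q b p B ≤ t) ∧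
    (p ≠ 2 → t = Q b p A + Q b p B → B ∘L adjoint A = 0) := by
  obtain ⟨L, _, _, _, i1, i2, k⟩ := exBlk K K
  obtain ⟨a11, a12, a21, a22, -⟩ := id k
  obtain ⟨X, hX⟩ : ∃ X, X = i1 ∘L A + i2 ∘L B := ⟨_, rfl⟩
  have c1 := cpt b hp hA
  have c2 := cpt b hp hB
  obtain ⟨w, c, hc⟩ := Q_eb (A := X) (cc (hX ▸ (c1.clm_comp i1).add (c2.clm_comp i2)))
  obtain ⟨_, d, hd⟩ := Q_eb (A := adjoint A) (by rw [adjoint_adjoint]; exact c1.comp_clm _)
  obtain ⟨_, f, hf⟩ := Q_eb (A := adjoint B) (by rw [adjoint_adjoint]; exact c2.comp_clm _)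
  obtain ⟨_, l, -⟩ := exists_hilbertBasis ℂ L
  have n1 : ∀ v, ‖i1 v‖ = ‖v‖ := fun v => by
    rw [← sq_eq_sq₀ (norm_nonneg _) (norm_nonneg _), ← ip_sq, ip_eig (a := 1) (by simp [a11]), one_mul]
  have n2 : ∀ v, ‖i2 v‖ = ‖v‖ := fun v => by
    rw [← sq_eq_sq₀ (norm_nonneg _) (norm_nonneg _), ← ip_sq, ip_eig (a := 1) (by simp [a22]), one_mul]
  have x1 : ∀ v, adjoint X (i1 v) = adjoint A v := fun v => by simp [hX, a11, a21]
  have x2 : ∀ v, adjoint X (i2 v) = adjoint B v := fun v => by simp [hX, a22, a12]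
  have e : Q c p X = Q (i1 ∘ d) p (adjoint X) + Q (i2 ∘ f) p (adjoint X) :=
    (Q_adj c l hp X).symm.trans (k.tr d f l (rp_nn (pos _) _))
  have u1 : ∀ i, ‖(i1 ∘ d) i‖ = 1 := fun i => (n1 _).trans (d.orthonormal.1 i)
  have u2 : ∀ i, ‖(i2 ∘ f) i‖ = 1 := fun i => (n2 _).trans (f.orthonormal.1 i)
  have e1 : Q b p A = ∑' i, ENNReal.ofReal ((‖adjoint X ((i1 ∘ d) i)‖ ^ 2) ^ (p / 2)) := by
    simp [← Q_adj b d hp, hd p hp, x1]
  have e2 : Q b p B = ∑' i, ENNReal.ofReal ((‖adjoint X ((i2 ∘ f) i)‖ ^ 2) ^ (p / 2)) := by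
    simp [← Q_adj b f hp, hf p hp, x2]
  refine ⟨w, c, Q c p X, ?_, fun h => ?_, fun h => ?_, fun h z => bext d fun i => ?_⟩
  · rw [hc p hp]
    refine tsum_congr fun i => ?_
    rw [← ip_sq, show adjoint X ∘L X = adjoint A ∘L A + adjoint B ∘L B by
      ext1; simp [hX, a11, a12, a21, a22], ip_add, ip_sq, ip_sq]
  · rw [e, e1, e2]; exact add_le_add (jle u1 hp h _) (jle u2 hp h _)
  · rw [e, e1, e2]; exact add_le_add (jge u1 h _) (jge u2 h _)
  have j := fun i => jen (pos (adjoint X)) (u1 i) (half_pos hp)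
  simp only [ip_sq] at j
  have := congr(adjoint i2 $((j i).2 (fun c => h (by linarith)) (by
    by_contra c
    rw [e] at z
    rcases h.lt_or_gt with h | h
    · refine z.not_lt (ENNReal.add_lt_add_of_lt_of_le (ne_top_of_le_ne_top hB (e2 ▸ jle u2 hp h.le _))
        (e1 ▸ ENNReal.tsum_lt_tsum (i := i) (ne_top_of_le_ne_top hA (e1 ▸ jle u1 hp h.le _))
          (fun i => ENNReal.ofReal_le_ofReal (by nlinarith [(j i).1])) ?_) (e2 ▸ jle u2 hp h.le _))
      exact (ENNReal.ofReal_lt_ofReal_iff_of_nonneg (ip_nn (rp_nn (pos _) _) _)).mpr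
        (lt_of_le_of_ne (by nlinarith [(j i).1]) c)
    · refine z.not_gt (ENNReal.add_lt_add_of_lt_of_le hB
        (e1 ▸ ENNReal.tsum_lt_tsum (i := i) (e1 ▸ hA)
          (fun i => ENNReal.ofReal_le_ofReal (by nlinarith [(j i).1])) ?_) (e2 ▸ jge u2 h.le _))
      exact (ENNReal.ofReal_lt_ofReal_iff_of_nonneg (by positivity)).mpr
        (lt_of_le_of_ne (by nlinarith [(j i).1]) (Ne.symm c)))))
  simpa [x1, hX, a21, a22, a11] using this

theorem par (x y : K) : (‖x + y‖ ^ 2 + ‖x - y‖ ^ 2) / 2 = ‖x‖ ^ 2 + ‖y‖ ^ 2 := by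
  linarith [parallelogram_law_with_norm ℂ x y]

theorem disj (b : HilbertBasis ι ℂ H) {p : ℝ} (hp : 0 < p) (h2 : p ≠ 2) {A B : H →L[ℂ] K}
    (hA : Q b p A ≠ ⊤) (hB : Q b p B ≠ ⊤)
    (h : Q b p (A + B) + Q b p (A - B) = 2 * (Q b p A + Q b p B)) : B ∘L adjoint A = 0 := by
  obtain ⟨w, c, t, ht, h3, h4, h5⟩ := col b hp hA hB
  have m := fun i => mid (half_pos hp) (sq_nonneg ‖A (c i) + B (c i)‖) (sq_nonneg ‖A (c i) - B (c i)‖)
  simp only [par] at m
  have n := c.orthonormal.1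
  rw [Q_ind b c, Q_ind b c _ (A - B)] at h
  have e : 2 * t = ∑' i, ENNReal.ofReal (2 * (‖A (c i)‖ ^ 2 + ‖B (c i)‖ ^ 2) ^ (p / 2)) := by
    simp [ht, ← ENNReal.tsum_mul_left]
  refine h5 h2 ?_
  rcases h2.lt_or_gt with q | q
  · refine le_antisymm (h3 q.le) ((ENNReal.mul_le_mul_iff_right two_ne_zero (by simp)).mp ?_)
    rw [← h, e]
    refine (add_le_add (jle n hp q.le _) (jle n hp q.le _)).trans ?_
    rw [← ENNReal.tsum_add]
    refine ENNReal.tsum_le_tsum fun i => ?_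
    rw [← ENNReal.ofReal_add (by positivity) (by positivity)]
    exact ENNReal.ofReal_le_ofReal (by simp only [add_apply, sub_apply]; nlinarith [m i])
  · refine le_antisymm ((ENNReal.mul_le_mul_iff_right two_ne_zero (by simp)).mp ?_) (h4 q.le)
    rw [← h, e]
    refine le_trans ?_ (add_le_add (jge n q.le _) (jge n q.le _))
    rw [← ENNReal.tsum_add]
    refine ENNReal.tsum_le_tsum fun i => ?_
    rw [← ENNReal.ofReal_add (by positivity) (by positivity)]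
    exact ENNReal.ofReal_le_ofReal (by simp only [add_apply, sub_apply]; nlinarith [m i])

theorem Q_add (b : HilbertBasis ι ℂ H) {p : ℝ} (hp : 0 < p) {A B : H →L[ℂ] K}
    (hA : Q b p A < ⊤) (hB : Q b p B < ⊤) : Q b p (A + B) < ⊤ := by
  have k : ∀ x y : K, (‖x + y‖ ^ 2) ^ (p / 2) ≤ 2 ^ (p / 2) * (‖x‖ ^ 2 + ‖y‖ ^ 2) ^ (p / 2) :=
    fun x y => by
      rw [← Real.mul_rpow (by positivity) (by positivity)]
      gcongr
      linarith [par x y, sq_nonneg ‖x - y‖]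
  rcases le_total p 2 with q | q
  · obtain ⟨w, c, t, ht, h3, -⟩ := col b hp hA.ne hB.ne
    rw [Q_ind b c]
    refine (jle c.orthonormal.1 hp q _).trans_lt (lt_of_le_of_lt ?_ (ENNReal.mul_lt_top
      (ENNReal.ofReal_lt_top (r := 2 ^ (p / 2))) ((h3 q).trans_lt (ENNReal.add_lt_top.mpr ⟨hA, hB⟩))))
    rw [ht, ← ENNReal.tsum_mul_left]
    refine ENNReal.tsum_le_tsum fun i => ?_
    rw [← ENNReal.ofReal_mul (by positivity)]
    exact ENNReal.ofReal_le_ofReal (k _ _)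
  · obtain ⟨w, c, hc⟩ := Q_eb (A := A + B) (cc ((cpt b hp hA.ne).add (cpt b hp hB.ne)))
    rw [Q_ind b c] at *
    refine lt_of_le_of_lt ?_ (ENNReal.mul_lt_top (ENNReal.ofReal_lt_top (r := 2 ^ (p / 2) * 2 ^ (p / 2)))
      (ENNReal.add_lt_top.mpr ⟨(jge c.orthonormal.1 q A).trans_lt hA,
        (jge c.orthonormal.1 q B).trans_lt hB⟩))
    rw [hc p hp, ← ENNReal.tsum_add, ← ENNReal.tsum_mul_left]
    refine ENNReal.tsum_le_tsum fun i => ?_
    rw [← ENNReal.ofReal_add (by positivity) (by positivity), ← ENNReal.ofReal_mul (by positivity)]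
    refine ENNReal.ofReal_le_ofReal ((k (A (c i)) (B (c i))).trans ?_)
    rw [mul_assoc]
    gcongr
    rcases le_total (‖A (c i)‖ ^ 2) (‖B (c i)‖ ^ 2) with a | a
    · calc _ ≤ (2 * ‖B (c i)‖ ^ 2) ^ (p / 2) := by gcongr; linarith
        _ ≤ _ := by
          rw [Real.mul_rpow (by positivity) (by positivity)]; gcongr; exact le_add_of_nonneg_left (by positivity)
    · calc _ ≤ (2 * ‖A (c i)‖ ^ 2) ^ (p / 2) := by gcongr; linarith
        _ ≤ _ := by
          rw [Real.mul_rpow (by positivity) (by positivity)]; gcongr; exact le_add_of_nonneg_right (by positivity)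

theorem Q_smul (b : ι → H) {p : ℝ} (hp : 0 < p) (c : ℂ) (x : H →L[ℂ] K) :
    Q b p (c • x) = ENNReal.ofReal (‖c‖ ^ p) * Q b p x := by
  have cp := Real.continuous_rpow_const (show 0 ≤ p / 2 by positivity)
  have sa := (pos x).isSelfAdjoint
  rw [Q, Q, show adjoint (c • x) ∘L (c • x) = (‖c‖ ^ 2) • (adjoint x ∘L x) by
      rw [LinearIsometryEquiv.map_smulₛₗ]
      ext1; simp [smul_smul, Complex.mul_conj', ← Complex.coe_smul],
    ← cfc_comp_const_mul _ _ _ cp.continuousOn, cfc_congr (g := fun t => ‖c‖ ^ p * t ^ (p / 2))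
      fun t ht => by
        beta_reduce
        rw [Real.mul_rpow (by positivity) (spectrum_nonneg_of_nonneg (pos x) ht), ← Real.rpow_two,
          ← Real.rpow_mul (norm_nonneg c), mul_div_cancel₀ _ two_ne_zero],
    cfc_const_mul _ _ _ cp.continuousOn, tp, tp, ← ENNReal.tsum_mul_left]
  exact tsum_congr fun i => by rw [ip_smul, ENNReal.ofReal_mul (by positivity)]

theorem Q_mono (b : HilbertBasis ι ℂ H) {r s : ℝ} (hr : 0 < r) (h : r ≤ s) (x : H →L[ℂ] K) :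
    Q b s x ≤ Q b r x ^ (s / r) := by
  have s0 := hr.trans_le h
  by_cases t : Q b r x = ⊤
  · rw [t, ENNReal.top_rpow_of_pos (by positivity)]; exact le_top
  obtain ⟨w, c, hc⟩ := Q_eb (cc (cpt b hr t))
  have g : 0 ≤ s / r - 1 := by rw [sub_nonneg, one_le_div hr]; exact h
  rw [Q_ind b c, Q_ind b c, show s / r = 1 + (s / r - 1) by ring,
    ENNReal.rpow_add_of_nonneg _ _ zero_le_one g, ENNReal.rpow_one, hc s s0]
  nth_rw 1 [hc r hr]
  rw [← ENNReal.tsum_mul_right]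
  refine ENNReal.tsum_le_tsum fun i => le_trans (le_of_eq ?_) (mul_le_mul_right
    (ENNReal.rpow_le_rpow (hc r hr ▸ ENNReal.le_tsum i) g) _)
  rw [ENNReal.ofReal_rpow_of_nonneg (by positivity) g, ← ENNReal.ofReal_mul (by positivity),
    ← Real.rpow_mul (by positivity), ← Real.rpow_add' (by positivity)] <;>
  rw [show r / 2 + r / 2 * (s / r - 1) = s / 2 by field_simp; ring]
  positivity

theorem orth {S T : H →L[ℂ] H} (hS : IsSelfAdjoint S) (hT : IsSelfAdjoint T) (h : S ∘L T = 0)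
    {f : ℝ → ℝ} (hf : Continuous f) (h0 : f 0 = 0) : cfc f (S + T) = cfc f S + cfc f T := by
  have h' : T ∘L S = 0 := by simpa [hS.adjoint_eq, hT.adjoint_eq] using congrArg adjoint h
  have k : ∀ {S T : H →L[ℂ] H}, IsSelfAdjoint S → IsSelfAdjoint T → T ∘L S = 0 → ∀ v,
      (cfc f (S + T) - (cfc f S + cfc f T)) (S v) = 0 := fun {S T} hS hT h v => by
    have a := congr($(itw hS (hS.add hT) (T := S) (by rw [add_comp, h, add_zero]) hf) v)
    have b := congr($(itw hS hS (T := S) rfl hf) v)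
    have c := eig hT (a := 0) (v := S v) (by simpa using congr($h v)) hf
    simp only [comp_apply] at a b
    simp [a, b, c, h0]
  obtain ⟨D, hD⟩ : ∃ D, D = cfc f (S + T) - (cfc f S + cfc f T) := ⟨_, rfl⟩
  have d : IsSelfAdjoint D := hD ▸ IsSelfAdjoint.sub (cfc_predicate _ _)
    (IsSelfAdjoint.add (cfc_predicate _ _) (cfc_predicate _ _))
  have z : ∀ {S : H →L[ℂ] H}, IsSelfAdjoint S → (∀ v, D (S v) = 0) → ∀ v, S (D v) = (0 : ℝ) • D v :=
    fun {S} hS h v => by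
      simpa [hS.adjoint_eq, d.adjoint_eq] using
        congr($(congrArg adjoint (show D ∘L S = 0 from ContinuousLinearMap.ext h)) v)
  have z1 := z hS (hD ▸ k hS hT h')
  have z2 := z hT (by rw [hD, add_comm S, add_comm (cfc f S)]; exact k hT hS h)
  rw [← sub_eq_zero, ← hD]
  refine CStarRing.star_mul_self_eq_zero_iff D |>.mp (ContinuousLinearMap.ext fun v => ?_)
  rw [d.star_eq]
  nth_rw 1 [hD]
  simp [eig hS (z1 v) hf, eig hT (z2 v) hf, h0,
    eig (hS.add hT) (a := 0) (v := D v) (by simp [z1, z2]) hf]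

def Dj (A B : H →L[ℂ] K) : Prop := adjoint A ∘L B = 0 ∧ A ∘L adjoint B = 0

theorem Dj.symm {A B : H →L[ℂ] K} (h : Dj A B) : Dj B A :=
  ⟨by simpa using congrArg adjoint h.1, by simpa using congrArg adjoint h.2⟩

theorem Dj.adj {A B : H →L[ℂ] K} (h : Dj A B) : Dj (adjoint A) (adjoint B) :=
  ⟨by simpa using h.2, by simpa using h.1⟩

theorem Dj.add {A B C : H →L[ℂ] K} (h : Dj A C) (g : Dj B C) : Dj (A + B) C :=
  ⟨by simp [h.1, g.1], by simp [h.2, g.2]⟩

theorem Dj.fc {A B : H →L[ℂ] K} (h : Dj A B) {q : ℝ} (hq : 0 < q) :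
    cfc (fun t : ℝ => t ^ q) (adjoint (A + B) ∘L (A + B)) =
      cfc (fun t : ℝ => t ^ q) (adjoint A ∘L A) + cfc (fun t : ℝ => t ^ q) (adjoint B ∘L B) := by
  rw [← orth (pos A).isSelfAdjoint (pos B).isSelfAdjoint (by
    rw [comp_assoc, ← comp_assoc A, h.2]; simp) (Real.continuous_rpow_const hq.le) (by simp [hq.ne'])]
  simp [h.1, h.symm.1]

theorem Dj.Q {A B : H →L[ℂ] K} (h : Dj A B) (b : ι → H) {p : ℝ} (hp : 0 < p) :
    Q b p (A + B) = Q b p A + Q b p B := by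
  unfold MP_fc6e23_an.Q tp
  rw [h.fc (half_pos hp), ← ENNReal.tsum_add]
  exact tsum_congr fun i => by
    rw [ip_add, ENNReal.ofReal_add (ip_nn (rp_nn (pos _) _) _) (ip_nn (rp_nn (pos _) _) _)]

theorem dj (b : HilbertBasis ι ℂ H) {p : ℝ} (hp : 0 < p) (h2 : p ≠ 2) {A B : H →L[ℂ] H}
    (hA : Q b p A = 1) (hB : Q b p B = 1) (h : Q b p (A + B) = 2) (g : Q b p (A - B) = 2) : Dj B A := by
  refine ⟨?_, disj b hp h2 (by simp [hA]) (by simp [hB]) (by rw [hA, hB, h, g]; norm_num)⟩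
  simpa using disj b hp h2 (A := adjoint A) (B := adjoint B) (by simp [Q_adj b b hp, hA])
    (by simp [Q_adj b b hp, hB]) (by
      rw [← map_add, ← map_sub]; simp only [Q_adj b b hp, hA, hB, h, g]; norm_num)

theorem Q_pi (b : ι → H) {p : ℝ} (hp : 0 < p) {x : H →L[ℂ] K} (h : x ∘L adjoint x ∘L x = x) :
    Q b p x = Q b 2 x := by
  have cp := Real.continuous_rpow_const (show 0 ≤ p / 2 by positivity)
  have sa := (pos x).isSelfAdjoint
  have e := fun v => congr($h v)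
  simp only [comp_apply] at e
  rw [Q, Q, div_self two_ne_zero]
  simp only [Real.rpow_one, cfc_id' ℝ _ sa]
  congr 1
  ext1 v
  rw [← add_sub_cancel (adjoint x (x v)) v, map_add, eig sa (a := 1) (by simp [e]) cp,
    eig sa (a := 0) (by simp [e]) cp]
  simp [hp.ne']

theorem ext_on {v : κ → H} (hv : Orthonormal ℂ v) : ∃ (w : Type) (c : HilbertBasis w ℂ H) (φ : κ → w),
    Function.Injective φ ∧ ∀ i, c (φ i) = v i := by
  obtain ⟨w, c, h1, h2⟩ := hv.toSubtypeRange.exists_hilbertBasis_extension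
  exact ⟨w, c, fun i => ⟨v i, h1 ⟨i, rfl⟩⟩, fun i j h => hv.linearIndependent.injective
    (congrArg Subtype.val h), fun i => by rw [h2]⟩

theorem tp_ge (b : HilbertBasis ι ℂ H) {v : κ → H} (hv : Orthonormal ℂ v) {S : H →L[ℂ] H}
    (h : 0 ≤ S) : tp v S ≤ tp b S := by
  obtain ⟨w, c, φ, h1, h2⟩ := ext_on hv
  rw [tp_ind b c h, tp]
  simp only [← h2]
  exact ENNReal.tsum_comp_le_tsum_of_injective h1 fun i => ENNReal.ofReal (ip S (c i))

end Pool.Agent.H.MP_fc6e23_an
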