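import Pool.Agent.H.MP_fc6e23_an.C

set_option autoImplicit false
set_option linter.unusedSectionVars false

namespace Pool.Agent.H.MP_fc6e23_an

open Filter Topology ContinuousLinearMap
open scoped ENNReal InnerProductSpace Matrix

set_option maxHeartbeats 300000

variable {H : Type} [NormedAddCommGroup H] [InnerProductSpace ℂ H] [CompleteSpace H] {ι : Type}

abbrev M3 : Type := Matrix (Fin 3) (Fin 3) ℂ

noncomputable def em (v : Fin 3 → H) : M3 →ₗ[ℂ] (H →L[ℂ] H) where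
  toFun m := ∑ i, ∑ j, m i j • InnerProductSpace.rankOne ℂ (v i) (v j)
  map_add' m n := by simp [add_smul, Finset.sum_add_distrib]
  map_smul' c m := by simp [Finset.smul_sum, smul_smul]

theorem em_ap (v : Fin 3 → H) (m : M3) (x : H) :
    em v m x = ∑ i, (∑ j, m i j * ⟪v j, x⟫_ℂ) • v i := by
  simp [em, Finset.sum_smul, smul_smul]

theorem em_adj (v : Fin 3 → H) (m : M3) : adjoint (em v m) = em v mᴴ := by
  simp only [em, LinearMap.coe_mk, AddHom.coe_mk, map_sum, LinearIsometryEquiv.map_smulₛₗ,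
    InnerProductSpace.adjoint_rankOne]
  exact Finset.sum_comm

theorem em_v {v : Fin 3 → H} (hv : Orthonormal ℂ v) (m : M3) (k : Fin 3) :
    em v m (v k) = ∑ i, m i k • v i := by
  simp [em_ap, orthonormal_iff_ite.mp hv]

theorem em_mul {v : Fin 3 → H} (hv : Orthonormal ℂ v) (m n : M3) :
    em v m ∘L em v n = em v (m * n) := by
  ext1 x
  simp only [comp_apply, em_ap, hv.inner_right_fintype, Matrix.mul_apply, Finset.sum_mul,
    Finset.mul_sum, mul_assoc]
  exact Finset.sum_congr rfl fun i _ => by rw [Finset.sum_comm]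

noncomputable def hs (m : M3) : ℝ := ∑ k, ∑ i, ‖m i k‖ ^ 2

theorem em_n {v : Fin 3 → H} (hv : Orthonormal ℂ v) (m : M3) :
    ∑ k, ‖em v m (v k)‖ ^ 2 = hs m := by
  refine Finset.sum_congr rfl fun k _ => ?_
  rw [em_v hv, ← inner_self_eq_norm_sq (𝕜 := ℂ), hv.inner_sum]
  simp [Complex.conj_mul', ← Complex.ofReal_pow]

variable (b : HilbertBasis ι ℂ H) (φ : Fin 3 ↪ ι)

theorem on : Orthonormal ℂ (b ∘ φ) := b.orthonormal.comp φ φ.injective

theorem ts {α : Type} [AddCommMonoid α] [TopologicalSpace α] {f : ι → α} {m : M3}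
    (h : ∀ w, em (b ∘ φ) m (b w) = 0 → f w = 0) : ∑' w, f w = ∑ k, f (φ k) := by
  classical
  rw [← φ.injective.tsum_eq (f := f), tsum_fintype]
  intro w hw
  by_contra c
  refine hw (h w ?_)
  have : ∀ j, φ j ≠ w := fun j e => c ⟨j, e⟩
  simp [em_ap, orthonormal_iff_ite.mp b.orthonormal, this]

theorem Q2em (m : M3) : Q b 2 (em (b ∘ φ) m) = ENNReal.ofReal (hs m) := by
  rw [Q_two, ts b φ (m := m) fun w h => by simp [h], ← em_n (on b φ),
    ENNReal.ofReal_sum_of_nonneg fun _ _ => by positivity]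
  rfl

theorem Qem {p : ℝ} (hp : 0 < p) (m : M3) : Q b p (em (b ∘ φ) m) < ⊤ := by
  rw [Q, tp, ts b φ (m := m) fun w h => by
    rw [ip_eig (eig (pos (em (b ∘ φ) m)).isSelfAdjoint (v := b w) (a := 0) (by simp [h])
      (Real.continuous_rpow_const (half_pos hp).le))]
    simp [hp.ne']]
  simp

theorem Qpi {p : ℝ} (hp : 0 < p) {m : M3} (h : m * (mᴴ * m) = m) :
    Q b p (em (b ∘ φ) m) = ENNReal.ofReal (hs m) := by
  rw [Q_pi b hp (by rw [em_adj, em_mul (on b φ), em_mul (on b φ), h]), Q2em]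

theorem ctr {m : M3} {x : H →L[ℂ] H} (h : 3 * hs m ≤ ∑ k, ‖x (b (φ k))‖ ^ 2) :
    ‖em (b ∘ φ) m‖ ≤ ‖x‖ ∧ ∀ p, 1 ≤ p → Q b p (em (b ∘ φ) m) ≤ Q b p x := by
  have n := b.orthonormal.1
  obtain ⟨k, hk⟩ : ∃ k, hs m ≤ ‖x (b (φ k))‖ ^ 2 := by
    by_contra! c
    rw [Fin.sum_univ_three] at h
    linarith [c 0, c 1, c 2]
  have h0 : 0 ≤ hs m := by unfold hs; positivity
  refine ⟨?_, fun p hp => ?_⟩
  · have := op_le b (em (b ∘ φ) m)
    rw [Q2em, ENNReal.ofReal_le_ofReal_iff h0] at this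
    have e := x.le_opNorm (b (φ k))
    rw [n, mul_one] at e
    exact (pow_le_pow_left₀ (norm_nonneg _) e 2).trans' (this.trans hk) |>
      (sq_le_sq₀ (norm_nonneg _) (norm_nonneg _)).mp
  rcases le_total p 2 with q | q
  · have p0 : 0 < p := by linarith
    have a1 := jle n one_pos one_le_two (em (b ∘ φ) m)
    rw [ts b φ (m := m) fun w h => by simp [h],
      ← ENNReal.ofReal_sum_of_nonneg fun _ _ => by positivity] at a1
    simp only [← Real.sqrt_eq_rpow, Real.sqrt_sq (norm_nonneg _)] at a1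
    have a2 : ENNReal.ofReal (∑ k, ‖em (b ∘ φ) m (b (φ k))‖) ^ (2 : ℝ) ≤ Q b 2 x := by
      rw [ENNReal.ofReal_rpow_of_nonneg (by positivity) zero_le_two, Real.rpow_two, Q_two]
      refine le_trans ?_ (ENNReal.tsum_comp_le_tsum_of_injective φ.injective _)
      rw [tsum_fintype, ← ENNReal.ofReal_sum_of_nonneg fun _ _ => by positivity]
      refine ENNReal.ofReal_le_ofReal (le_trans ?_ h)
      simpa [← em_n (on b φ)] using sq_sum_le_card_mul_sum_sq (s := Finset.univ)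
        (f := fun k => ‖em (b ∘ φ) m (b (φ k))‖)
    calc _ ≤ _ := Q_mono b one_pos hp _
      _ ≤ (ENNReal.ofReal (∑ k, ‖em (b ∘ φ) m (b (φ k))‖) ^ (2 : ℝ)) ^ (p / 2) := by
        rw [← ENNReal.rpow_mul, mul_div_cancel₀ _ two_ne_zero, div_one]; gcongr
      _ ≤ (Q b p x ^ (2 / p)) ^ (p / 2) := by gcongr; exact a2.trans (Q_mono b p0 q x)
      _ = _ := by rw [← ENNReal.rpow_mul, div_mul_div_cancel₀ p0.ne', div_self two_ne_zero, ENNReal.rpow_one]
  · refine (Q_mono b two_pos q _).trans (le_trans ?_ ((ENNReal.le_tsum (φ k)).trans (jge n q x)))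
    rw [Q2em, ENNReal.ofReal_rpow_of_nonneg h0 (by positivity)]
    gcongr

end Pool.Agent.H.MP_fc6e23_an
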