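import Pool.Agent.H.MP_fc6e23_an.D

set_option autoImplicit false
set_option linter.unusedSectionVars false

namespace Pool.Agent.H.MP_fc6e23_an

open Filter Topology ContinuousLinearMap
open scoped ENNReal InnerProductSpace Matrix

set_option maxHeartbeats 300000

variable {H : Type} [NormedAddCommGroup H] [InnerProductSpace ℂ H] [CompleteSpace H] {ι : Type}

def sg : Fin 3 → M3 :=
  ![!![0, 1, 0; 1, 0, 0; 0, 0, 0], !![0, -.I, 0; .I, 0, 0; 0, 0, 0], !![1, 0, 0; 0, -1, 0; 0, 0, 0]]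

def ee : Fin 3 → M3 :=
  ![!![1, 0, 0; 0, 0, 0; 0, 0, 0], !![0, 0, 0; 0, 1, 0; 0, 0, 0], !![0, 0, 0; 0, 0, 0; 0, 0, 1]]

def pp : M3 := !![1, 0, 0; 0, 1, 0; 0, 0, 0]

def ok (m : M3) (r : ℝ) : Prop := m * (mᴴ * m) = m ∧ hs m = r

theorem ok_of {m : M3} {r : ℝ} (h : ∀ i j, ∑ k, m i k * ∑ l, star (m l k) * m l j = m i j)
    (g : hs m = r) : ok m r := ⟨by ext i j; exact h i j, g⟩

theorem ok1 (i : Fin 3) : ok (ee i) 1 := by
  fin_cases i <;> refine ok_of ?_ ?_ <;> simp [ee, hs, Fin.sum_univ_three, Fin.forall_fin_succ]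

theorem ok2 {i j : Fin 3} (h : i ≠ j) : ok (ee i + ee j) 2 ∧ ok (ee i - ee j) 2 := by
  fin_cases i <;> fin_cases j <;> simp at h <;> constructor <;> refine ok_of ?_ ?_ <;>
    simp [ee, hs, Fin.sum_univ_three, Fin.forall_fin_succ] <;> norm_num

theorem ok3 : ok (ee 0 + ee 1 + ee 2) 3 := by
  refine ok_of ?_ ?_ <;> simp [ee, hs, Fin.sum_univ_three, Fin.forall_fin_succ]; norm_num

theorem ok4 : ok pp 2 := by
  refine ok_of ?_ ?_ <;> simp [pp, hs, Fin.sum_univ_three, Fin.forall_fin_succ]; norm_num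

theorem ok5 (i : Fin 3) : ok (sg i) 2 := by
  fin_cases i <;> refine ok_of ?_ ?_ <;> simp [sg, hs, Fin.sum_univ_three, Fin.forall_fin_succ] <;>
    norm_num

theorem ok6 (i : Fin 3) : ok ((2⁻¹ : ℂ) • (pp + sg i)) 1 ∧ ok ((2⁻¹ : ℂ) • (pp - sg i)) 1 := by
  fin_cases i <;> constructor <;> refine ok_of ?_ ?_ <;>
    simp [sg, pp, hs, Fin.sum_univ_three, Fin.forall_fin_succ, Complex.ext_iff] <;> norm_num

noncomputable def ab (x : H →L[ℂ] H) : H →L[ℂ] H := cfc (fun t : ℝ => t ^ ((1 : ℝ) / 2)) (adjoint x ∘L x)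

theorem ab_sq (x : H →L[ℂ] H) : ab x ∘L ab x = adjoint x ∘L x := by
  have cp := Real.continuous_rpow_const (show (0 : ℝ) ≤ 1 / 2 by positivity)
  rw [ab, ← mul_def, ← cfc_mul _ _ _ cp.continuousOn cp.continuousOn]
  refine (cfc_congr fun t ht => ?_).trans (cfc_id' ℝ _ (pos x).isSelfAdjoint)
  rw [← Real.rpow_add' (spectrum_nonneg_of_nonneg (pos x) ht) (by norm_num)]; norm_num

theorem gm' (x : H →L[ℂ] H) (e f : H) :
    2 * (⟪f, x e⟫_ℂ).re ≤ ip (ab x) e + ip (ab (adjoint x)) f :=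
  gm x (rp_nn (pos _) _) (rp_nn (pos _) _) (ab_sq x) ((ab_sq _).trans (by rw [adjoint_adjoint])) e f

theorem ip_sm (S : H →L[ℂ] H) (c : ℂ) (e : H) : ip S (c • e) = ‖c‖ ^ 2 * ip S e := by
  rw [ip, map_smul, inner_smul_left, inner_smul_right, ← mul_assoc, Complex.conj_mul',
    ← Complex.ofReal_pow, Complex.re_ofReal_mul, ip]

noncomputable def t3 (v : Fin 3 → H) (m : M3) : (H →L[ℂ] H) →ₗ[ℂ] ℂ where
  toFun x := ∑ k, ⟪v k, x (em v m (v k))⟫_ℂ
  map_add' x y := by simp [Finset.sum_add_distrib]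
  map_smul' c x := by simp [Finset.mul_sum]

theorem t3_ap {v : Fin 3 → H} (hv : Orthonormal ℂ v) (m : M3) (x : H →L[ℂ] H) :
    t3 v m x = ∑ k, ∑ i, m i k * ⟪v k, x (v i)⟫_ℂ := by
  simp [t3, em_v hv]

theorem t3_em {v : Fin 3 → H} (hv : Orthonormal ℂ v) (m n : M3) :
    t3 v m (em v n) = ∑ k, ∑ i, m i k * n k i := by
  simp only [t3_ap hv, em_v hv, hv.inner_right_fintype]

noncomputable def TT (v : Fin 3 → H) (c : ℝ) (α β : Fin 3 → M3) : (H →L[ℂ] H) →ₗ[ℂ] (H →L[ℂ] H) :=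
  em v ∘ₗ ∑ i, (c : ℂ) • (t3 v (α i)).smulRight (β i)

theorem TT_ap (v : Fin 3 → H) (c : ℝ) (α β : Fin 3 → M3) (x : H →L[ℂ] H) :
    TT v c α β x = em v (∑ i, (c * t3 v (α i) x) • β i) := by
  simp [TT, mul_smul]

theorem hsb {v : Fin 3 → H} (hv : Orthonormal ℂ v) {c : ℝ} (hc : 6 * c ^ 2 ≤ 1) (x : H →L[ℂ] H) :
    3 * hs (∑ i, (c * t3 v (ee i) x) • sg i) ≤ ∑ k, ‖x (v k)‖ ^ 2 ∧
    3 * hs (∑ i, (c * t3 v (sg i) x) • ee i) ≤ ∑ k, ‖x (v k)‖ ^ 2 := by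
  have b := Finset.sum_le_sum fun k (_ : k ∈ Finset.univ) =>
    hv.sum_inner_products_le (x (v k)) (s := Finset.univ)
  simp only [t3_ap hv]
  generalize ∑ k, ‖x (v k)‖ ^ 2 = N at *
  obtain ⟨y, hy⟩ : ∃ y : Fin 3 → Fin 3 → ℂ, ∀ j k, ⟪v j, x (v k)⟫_ℂ = y j k := ⟨_, fun _ _ => rfl⟩
  simp only [hy] at *
  simp [hs, sg, ee, Fin.sum_univ_three, Complex.sq_norm, Complex.normSq_apply] at *
  constructor
  · nlinarith [mul_self_nonneg (y 0 1).re]
  · generalize (y 0 1).re = a1, (y 1 0).re = a2, (y 0 1).im = a3, (y 1 0).im = a4, (y 0 0).re = a5,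
      (y 1 1).re = a6, (y 0 0).im = a7, (y 1 1).im = a8 at *
    have g : (a1 + a2) ^ 2 + (a3 + a4) ^ 2 + (a4 - a3) ^ 2 + (a1 - a2) ^ 2 + (a5 - a6) ^ 2 +
        (a7 - a8) ^ 2 ≤ 2 * N := by
      nlinarith [sq_nonneg (a5 + a6), sq_nonneg (a7 + a8), mul_self_nonneg (y 2 0).re,
        mul_self_nonneg (y 2 1).re, mul_self_nonneg (y 0 2).re, mul_self_nonneg (y 1 2).re,
        mul_self_nonneg (y 2 2).re, mul_self_nonneg (y 2 0).im, mul_self_nonneg (y 2 1).im,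
        mul_self_nonneg (y 0 2).im, mul_self_nonneg (y 1 2).im, mul_self_nonneg (y 2 2).im]
    have := mul_le_mul_of_nonneg_left g (sq_nonneg c)
    have := mul_le_mul_of_nonneg_right hc (le_trans (by positivity) g)
    linarith

variable (b : HilbertBasis ι ℂ H) (φ : Fin 3 ↪ ι)

theorem hol {p a : ℝ} (hp : 1 < p) (ha : 0 < a) (s : Finset (Fin 3)) {x : H →L[ℂ] H}
    (h : Q b p x = ENNReal.ofReal (s.card * a ^ p)) : ∑ k ∈ s, ip (ab x) (b (φ k)) ≤ s.card * a := by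
  have c1 := Real.continuous_rpow_const (show (0 : ℝ) ≤ 1 / 2 by positivity)
  have c2 := Real.continuous_rpow_const (show (0 : ℝ) ≤ p / 2 by positivity)
  have k : ∀ u, ‖u‖ = 1 → p * a ^ (p - 1) * ip (ab x) u ≤ (p - 1) * a ^ p +
      ip (cfc (fun t : ℝ => t ^ (p / 2)) (adjoint x ∘L x)) u := fun u hu => by
    rw [← ip_smul, ← ip_one hu ((p - 1) * a ^ p), ← ip_add, ab,
      ← cfc_const_mul _ _ _ c1.continuousOn,
      ← cfc_const_add _ _ _ c2.continuousOn (pos x).isSelfAdjoint]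
    refine ip_mono (cfc_mono (fun t ht => ?_) (continuous_const.mul c1).continuousOn
      (continuous_const.add c2).continuousOn) u
    have t0 := spectrum_nonneg_of_nonneg (pos x) ht
    have := tan' (q := p) (by linarith) ha (Real.rpow_nonneg t0 (1 / 2))
    rw [mul_nonneg_iff_of_pos_left (by linarith), ← Real.rpow_mul t0, one_div_mul_eq_div] at this
    have e := Real.rpow_sub_one ha.ne' p
    rw [eq_div_iff ha.ne'] at e
    change p * a ^ (p - 1) * t ^ (1 / 2 : ℝ) ≤ (p - 1) * a ^ p + t ^ (p / 2)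
    rw [← e] at this ⊢
    linarith
  have t : ∑ k ∈ s, ip (cfc (fun t : ℝ => t ^ (p / 2)) (adjoint x ∘L x)) (b (φ k)) ≤ s.card * a ^ p := by
    rw [← ENNReal.ofReal_le_ofReal_iff (by positivity), ← h,
      ENNReal.ofReal_sum_of_nonneg fun _ _ => ip_nn (rp_nn (pos _) _) _]
    exact (Finset.sum_map s φ _).symm.trans_le (ENNReal.sum_le_tsum _)
  have := Finset.sum_le_sum fun i (_ : i ∈ s) => k _ (b.orthonormal.1 (φ i))
  rw [← Finset.mul_sum, Finset.sum_add_distrib, Finset.sum_const, nsmul_eq_mul] at this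
  refine le_of_mul_le_mul_left (a := p * a ^ (p - 1)) (this.trans ?_) (by positivity)
  have e := Real.rpow_sub_one ha.ne' p
  rw [eq_div_iff ha.ne'] at e
  rw [← e] at t ⊢
  linarith

def Iso (p : ℝ) (W : M3 →ₗ[ℂ] (H →L[ℂ] H)) : Prop := ∀ m r, ok m r → Q b p (W m) = ENNReal.ofReal r

variable {b} {p : ℝ} {W : M3 →ₗ[ℂ] (H →L[ℂ] H)}

theorem Iso.dE (h : Iso b p W) (hp : 0 < p) (h2 : p ≠ 2) {i j : Fin 3} (n : i ≠ j) :
    Dj (W (ee i)) (W (ee j)) :=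
  dj b hp h2 (by simp [h _ _ (ok1 j)]) (by simp [h _ _ (ok1 i)])
    (by rw [← map_add, h _ _ (ok2 n.symm).1]; simp) (by rw [← map_sub, h _ _ (ok2 n.symm).2]; simp)

theorem Iso.dS (h : Iso b p W) (hp : 0 < p) (h2 : p ≠ 2) (i : Fin 3) :
    adjoint (W (sg i)) ∘L W (sg i) = adjoint (W pp) ∘L W pp ∧
    W (sg i) ∘L adjoint (W (sg i)) = W pp ∘L adjoint (W pp) := by
  have e1 : W pp = W ((2⁻¹ : ℂ) • (pp + sg i)) + W ((2⁻¹ : ℂ) • (pp - sg i)) := by
    rw [← map_add]; congr 1; module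
  have e2 : W (sg i) = W ((2⁻¹ : ℂ) • (pp + sg i)) - W ((2⁻¹ : ℂ) • (pp - sg i)) := by
    rw [← map_sub]; congr 1; module
  have d := dj b hp h2 ((h _ _ (ok6 i).1).trans ENNReal.ofReal_one)
    ((h _ _ (ok6 i).2).trans ENNReal.ofReal_one)
    (by rw [← e1, h _ _ ok4]; simp) (by rw [← e2, h _ _ (ok5 i)]; simp)
  rw [e1, e2]
  generalize W ((2⁻¹ : ℂ) • (pp + sg i)) = F, W ((2⁻¹ : ℂ) • (pp - sg i)) = G at d
  simp [d.1, d.2, d.symm.1, d.symm.2]

theorem Iso.big (h : Iso b p W) (hp : 1 < p) (h2 : p ≠ 2) :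
    ∑ i, (t3 (b ∘ φ) (sg i) (W (ee i))).re ≤ 2 * (3 / 2) ^ (1 / p) := by
  have p0 : 0 < p := by linarith
  have k : ∀ i (A : H →L[ℂ] H), 2 * (t3 (b ∘ φ) (sg i) A).re ≤
      ∑ k ∈ {0, 1}, ip (ab A) (b (φ k)) + ∑ k ∈ {0, 1}, ip (ab (adjoint A)) (b (φ k)) := fun i A => by
    have g := fun k => gm' A (em (b ∘ φ) (sg i) ((b ∘ φ) k)) ((b ∘ φ) k)
    simp only [em_v (on b φ)] at g
    have g0 := g 0
    have g1 := g 1
    have n : ∀ (S : H →L[ℂ] H) e, ip S (-e) = ip S e := fun S e => by simp [ip]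
    fin_cases i <;> simp [t3_ap (on b φ), Fin.sum_univ_three, sg, ip_sm, n, inner_smul_right]
      at g0 g1 ⊢ <;> linarith
  have d := fun {i j} => h.dE p0 h2 (i := i) (j := j)
  have q : Q b p (W (ee 0) + W (ee 1) + W (ee 2)) =
      ENNReal.ofReal (({0, 1} : Finset (Fin 3)).card * ((3 / 2) ^ (1 / p)) ^ p) := by
    rw [← map_add, ← map_add, h _ _ ok3, ← Real.rpow_mul (by norm_num), one_div_mul_cancel p0.ne']
    norm_num
  have a1 := hol b φ hp (by positivity) _ q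
  have a2 := hol b φ hp (by positivity) _ ((Q_adj b b p0 _).trans q)
  have d1 := d (show (0 : Fin 3) ≠ 1 by decide)
  have d2 := (d (show (0 : Fin 3) ≠ 2 by decide)).add (d (show (1 : Fin 3) ≠ 2 by decide))
  rw [ab, d2.fc (by norm_num), d1.fc (by norm_num)] at a1
  rw [ab, map_add, d2.adj.fc (by norm_num), map_add, d1.adj.fc (by norm_num)] at a2
  have k0 := k 0 (W (ee 0))
  have k1 := k 1 (W (ee 1))
  have k2 := k 2 (W (ee 2))
  simp [ip_add, ab, Fin.sum_univ_three] at a1 a2 k0 k1 k2 ⊢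
  linarith

theorem Iso.small (h : Iso b p W) (hp : 1 < p) (h2 : p ≠ 2) :
    ∑ i, (t3 (b ∘ φ) (ee i) (W (sg i))).re ≤ 3 * (2 / 3) ^ (1 / p) := by
  have p0 : 0 < p := by linarith
  have k : ∀ i, 2 * (t3 (b ∘ φ) (ee i) (W (sg i))).re ≤
      ip (ab (W pp)) (b (φ i)) + ip (ab (adjoint (W pp))) (b (φ i)) := fun i => by
    have g := gm' (W (sg i)) (b (φ i)) (b (φ i))
    simp only [ab, adjoint_adjoint, h.dS p0 h2 i] at g ⊢
    refine le_trans (le_of_eq ?_) g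
    fin_cases i <;> simp [t3_ap (on b φ), Fin.sum_univ_three, ee]
  have q : Q b p (W pp) =
      ENNReal.ofReal ((Finset.univ : Finset (Fin 3)).card * ((2 / 3) ^ (1 / p)) ^ p) := by
    rw [h _ _ ok4, ← Real.rpow_mul (by norm_num), one_div_mul_cancel p0.ne']
    norm_num
  have a1 := hol b φ hp (by positivity) _ q
  have a2 := hol b φ hp (by positivity) _ ((Q_adj b b p0 _).trans q)
  simp [Fin.sum_univ_three] at a1 a2 ⊢
  linarith [k 0, k 1, k 2]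

end Pool.Agent.H.MP_fc6e23_an
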