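import Pool.Agent.H.MP_fc6e23_an.E

set_option autoImplicit false
set_option linter.unusedSectionVars false

namespace Pool.Agent.H.MP_fc6e23_an

open Filter Topology
open scoped ENNReal InnerProductSpace

set_option maxHeartbeats 300000

variable {H : Type} [NormedAddCommGroup H] [InnerProductSpace ℂ H] [CompleteSpace H] {ι : Type}

/-- The p-th power of the Schatten p-norm: the trace of (x* x)^(p/2), a value in [0, ∞]. -/
noncomputable def SQ (b : HilbertBasis ι ℂ H) (p : ℝ) (x : H →L[ℂ] H) : ℝ≥0∞ :=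
  ∑' i, ENNReal.ofReal (⟪b i, cfc (fun t : ℝ => t ^ (p / 2)) (star x * x) (b i)⟫_ℂ).re

/-- The Schatten class: all bounded operators whose Schatten p-norm is finite. -/
def Sp (b : HilbertBasis ι ℂ H) (p : ℝ) (hp : 0 < p) : Submodule ℂ (H →L[ℂ] H) where
  carrier := {x | SQ b p x < ⊤}
  add_mem' := Q_add b hp
  zero_mem' := by
    change Q b p (0 : H →L[ℂ] H) < ⊤
    rw [← zero_smul ℂ (0 : H →L[ℂ] H), Q_smul b hp]
    simp [hp.ne']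
  smul_mem' c x h := (Q_smul b hp c x).trans_lt (ENNReal.mul_lt_top ENNReal.ofReal_lt_top h)

/-- The trace. -/
noncomputable def tr (b : HilbertBasis ι ℂ H) (x : H →L[ℂ] H) : ℂ := ∑' i, ⟪b i, x (b i)⟫_ℂ

/-- T is a pw-limit of isometries for the size function N and the set Φ of functionals: along a
proper filter carried by N-preserving linear maps V, all powers of V converge weakly to the
powers of T. -/
def PW {X : Type} [AddCommGroup X] [Module ℂ X] (N : X → ℝ≥0∞) (Φ : Set (X → ℂ))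
    (T : X →ₗ[ℂ] X) : Prop :=
  ∃ l : Filter (X →ₗ[ℂ] X), l.NeBot ∧ (∀ᶠ V in l, ∀ x, N (V x) = N x) ∧
    ∀ (n : ℕ) (x : X), ∀ f ∈ Φ, Tendsto (fun V => f ((V ^ n) x)) l (𝓝 (f ((T ^ n) x)))

theorem npw (b : HilbertBasis ι ℂ H) (φ : Fin 3 ↪ ι) {p : ℝ} (hp : 0 < p) (h1 : 1 < p)
    (α β : Fin 3 → M3) (c K : ℝ)
    (hc : ∀ x : H →L[ℂ] H, 3 * hs (∑ i, (c * t3 (b ∘ φ) (α i) x) • β i) ≤ ∑ k, ‖x (b (φ k))‖ ^ 2)
    (hV : ∀ W, Iso b p W → ∑ i, (t3 (b ∘ φ) (β i) (W (α i))).re ≤ K)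
    (hT : K < ∑ i, (t3 (b ∘ φ) (β i) (TT (b ∘ φ) c α β (em (b ∘ φ) (α i)))).re) :
    ∃ T : Sp b p hp →ₗ[ℂ] Sp b p hp, (∀ x, SQ b p (T x) ≤ SQ b p x) ∧
      (∀ x, SQ b 1 (T x) ≤ SQ b 1 x) ∧ (∀ x, ‖(T x : H →L[ℂ] H)‖ ≤ ‖(x : H →L[ℂ] H)‖) ∧
      ¬ PW (fun x : Sp b p hp => SQ b p x) {f | ∃ y, SQ b (p / (p - 1)) y < ⊤ ∧
        f = fun x : Sp b p hp => tr b (x * y)} T := by
  have k := fun x => TT_ap (b ∘ φ) c α β x ▸ ctr b φ (hc x)
  refine ⟨(TT (b ∘ φ) c α β).restrict fun x _ => TT_ap (b ∘ φ) c α β x ▸ Qem b φ hp _,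
    fun x => (k x).2 p h1.le, fun x => (k x).2 1 le_rfl, fun x => (k x).1, ?_⟩
  rintro ⟨l, _, h2, h3⟩
  have e : ∀ x m, tr b (x * em (b ∘ φ) m) = t3 (b ∘ φ) m x := fun x m =>
    ts b φ (m := m) fun w h => by simp [h]
  have := tendsto_finsetSum Finset.univ fun i _ => (Complex.continuous_re.tendsto _).comp
    (h3 1 ⟨em (b ∘ φ) (α i), Qem b φ hp _⟩ _ ⟨_, Qem b φ (div_pos hp (sub_pos.mpr h1)) (β i), rfl⟩)
  simp only [e, pow_one, Function.comp] at this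
  refine hT.not_ge (le_of_tendsto this (h2.mono fun V h => ?_))
  exact hV ((Sp b p hp).subtype ∘ₗ V ∘ₗ (em (b ∘ φ)).codRestrict (Sp b p hp) (Qem b φ hp))
    fun m r o => (h _).trans (o.2 ▸ Qpi b φ hp o.1)

theorem main [Infinite ι] (b : HilbertBasis ι ℂ H) {p : ℝ} (hp : 0 < p) (h1 : 1 < p) (h2 : p ≠ 2) :
    ∃ T : Sp b p hp →ₗ[ℂ] Sp b p hp, (∀ x, SQ b p (T x) ≤ SQ b p x) ∧
      (∀ x, SQ b 1 (T x) ≤ SQ b 1 x) ∧ (∀ x, ‖(T x : H →L[ℂ] H)‖ ≤ ‖(x : H →L[ℂ] H)‖) ∧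
      ¬ PW (fun x : Sp b p hp => SQ b p x) {f | ∃ y, SQ b (p / (p - 1)) y < ⊤ ∧
        f = fun x : Sp b p hp => tr b (x * y)} T := by
  let φ : Fin 3 ↪ ι := Fin.valEmbedding.trans (Infinite.natEmbedding ι)
  rcases h2.lt_or_gt with q | q
  · refine npw b φ hp h1 sg ee ((2 / 3) ^ (1 / 2 : ℝ) / 2) _ (fun x => (hsb (on b φ) ?_ x).2)
      (fun W h => h.small φ h1 h2) ?_
    · rw [div_pow, ← Real.sqrt_eq_rpow, Real.sq_sqrt] <;> norm_num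
    · have : (2 / 3 : ℝ) ^ (1 / p) < (2 / 3) ^ (1 / 2 : ℝ) := Real.rpow_lt_rpow_of_exponent_gt
        (by norm_num) (by norm_num) (one_div_lt_one_div_of_lt hp q)
      simp only [TT_ap, t3_em (on b φ)]
      generalize (2 / 3 : ℝ) ^ (1 / 2 : ℝ) = c at *
      simp [Fin.sum_univ_three, sg, ee] at this ⊢
      linarith
  · refine npw b φ hp h1 ee sg ((3 / 2) ^ (1 / 2 : ℝ) / 3) _ (fun x => (hsb (on b φ) ?_ x).1)
      (fun W h => h.big φ h1 h2) ?_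
    · rw [div_pow, ← Real.sqrt_eq_rpow, Real.sq_sqrt] <;> norm_num
    · have : (3 / 2 : ℝ) ^ (1 / p) < (3 / 2) ^ (1 / 2 : ℝ) := Real.rpow_lt_rpow_of_exponent_lt
        (by norm_num) (one_div_lt_one_div_of_lt two_pos q)
      simp only [TT_ap, t3_em (on b φ)]
      generalize (3 / 2 : ℝ) ^ (1 / 2 : ℝ) = c at *
      simp [Fin.sum_univ_three, sg, ee] at this ⊢
      linarith

end Pool.Agent.H.MP_fc6e23_an
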