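import Pool.Agent.H.MP_fc6e23_an.E

set_option autoImplicit false
set_option linter.unusedSectionVars false

namespace Pool.Agent.H.MP_fc6e23_an

open Filter Topology ContinuousLinearMap
open scoped ENNReal InnerProductSpace Matrix

set_option maxHeartbeats 300000

variable {H : Type} [NormedAddCommGroup H] [InnerProductSpace ℂ H] [CompleteSpace H] {ι : Type}

theorem Q_four (b : ι → H) (Z : H →L[ℂ] H) :
    Q b 4 Z = ∑' i, ENNReal.ofReal (‖adjoint Z (Z (b i))‖ ^ 2) := by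
  have sa := (pos Z).isSelfAdjoint
  rw [Q, show (4 : ℝ) / 2 = 2 by norm_num]
  simp only [Real.rpow_two]
  rw [cfc_pow_id _ 2 sa, sq, mul_def]
  nth_rw 1 [← sa.adjoint_eq]
  simp only [tp, ip_sq, comp_apply]

theorem Q_cg (b : HilbertBasis ι ℂ H) {A X D : H →L[ℂ] H} (h : X ∘L adjoint X = D ∘L adjoint D) :
    Q b 2 (A ∘L X) = Q b 2 (A ∘L D) := by
  rw [← Q_adj b b two_pos, ← Q_adj b b two_pos (A ∘L D), Q, Q]
  simp only [adjoint_adjoint, adjoint_comp, comp_assoc]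
  rw [← comp_assoc X, h, comp_assoc]

theorem hs4 (b : HilbertBasis ι ℂ H) (E D : H →L[ℂ] H) :
    2 * Q b 2 (adjoint E ∘L D) ≤ Q b 4 E + Q b 4 D := by
  by_cases h : Q b 4 D = ⊤
  · simp [h]
  obtain ⟨w, c, hc⟩ := eb (pos (adjoint D))
    (by rw [adjoint_adjoint]; exact (cpt b four_pos h).comp_clm _)
  have r : adjoint (ab (adjoint D)) = ab (adjoint D) :=
    IsSelfAdjoint.adjoint_eq (rp_nn (pos (adjoint D)) (1 / 2)).isSelfAdjoint
  have e : ∀ i, ab (adjoint D) (c i) = (‖adjoint D (c i)‖ : ℂ) • c i := fun i => by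
    rw [← Real.sqrt_sq (norm_nonneg (adjoint D (c i))), Real.sqrt_eq_rpow, ← ip_sq]
    exact eig (pos (adjoint D)).isSelfAdjoint (hc i) (Real.continuous_rpow_const (by norm_num))
  rw [Q_cg b (X := D) (D := ab (adjoint D)) (by rw [r, ab_sq, adjoint_adjoint]), Q_ind b c,
    ← Q_adj b c four_pos E, ← Q_adj b c four_pos D, Q_two, ← ENNReal.tsum_mul_left, Q_four, Q_four,
    ← ENNReal.tsum_add]
  refine ENNReal.tsum_le_tsum fun i => ?_
  have k : ∀ X : H →L[ℂ] H, ‖X (c i)‖ ^ 2 ≤ ‖adjoint X (X (c i))‖ := fun X => by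
    rw [← ip_sq]
    simpa [c.orthonormal.1, ip] using re_inner_le_norm (𝕜 := ℂ) (c i) (adjoint X (X (c i)))
  rw [comp_apply, e, map_smul, norm_smul, ← ENNReal.ofReal_add (by positivity) (by positivity),
    ← ENNReal.ofReal_ofNat 2, ← ENNReal.ofReal_mul zero_le_two, Complex.norm_real, norm_norm]
  refine ENNReal.ofReal_le_ofReal ?_
  nlinarith [sq_nonneg (‖adjoint E (c i)‖ ^ 2 - ‖adjoint D (c i)‖ ^ 2),
    pow_le_pow_left₀ (by positivity) (k (adjoint E)) 2, pow_le_pow_left₀ (by positivity) (k (adjoint D)) 2]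

theorem o3 {A B C : H →L[ℂ] H} (h1 : Dj A B) (h2 : Dj A C) (h3 : Dj B C) (x y z : H) :
    ‖adjoint A x + adjoint B y + adjoint C z‖ ^ 2 =
      ‖adjoint A x‖ ^ 2 + ‖adjoint B y‖ ^ 2 + ‖adjoint C z‖ ^ 2 := by
  have k : ∀ {A B : H →L[ℂ] H}, Dj A B → ∀ x y, ⟪adjoint A x, adjoint B y⟫_ℂ = 0 := fun h x y => by
    rw [adjoint_inner_left, ← comp_apply, h.2]; simp
  rw [@norm_add_sq ℂ, @norm_add_sq ℂ, inner_add_left, k h1, k h2, k h3]
  simp

def Bd (f : ι → ℝ) (B : ℝ) : Prop := ∑' i, ENNReal.ofReal (f i) ≤ ENNReal.ofReal B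

theorem Bd.add {f g : ι → ℝ} {A B : ℝ} (h : Bd f A) (k : Bd g B) (a : 0 ≤ A) (c : 0 ≤ B) :
    Bd (fun i => f i + g i) (A + B) := by
  rw [Bd, ENNReal.ofReal_add a c]
  exact (ENNReal.tsum_le_tsum fun i => ENNReal.ofReal_add_le).trans
    (ENNReal.tsum_add.trans_le (add_le_add h k))

theorem Bd.mul {f : ι → ℝ} {A : ℝ} (h : Bd f A) {c : ℝ} (a : 0 ≤ c) : Bd (fun i => c * f i) (c * A) := by
  simp only [Bd, ENNReal.ofReal_mul a, ENNReal.tsum_mul_left]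
  exact mul_le_mul_right h _

theorem pw (s α β n : H) {t : ℝ} (h0 : 0 ≤ t) (h1 : t ≤ 1) :
    ‖s + (t : ℂ) • (α + β) + (t : ℂ) • (t : ℂ) • n‖ ^ 2 ≤ ‖s‖ ^ 2 + 2 * t * (⟪s, α + β⟫_ℂ).re +
      t ^ 2 * (‖s‖ ^ 2 + 3 * ‖n‖ ^ 2 + 4 * ‖α‖ ^ 2 + 4 * ‖β‖ ^ 2) := by
  rw [add_assoc, ← smul_add, @norm_add_sq ℂ, inner_smul_right, norm_smul, inner_add_right s (α + β),
    inner_smul_right, Complex.norm_real, Real.norm_of_nonneg h0]
  have a1 := re_inner_le_norm (𝕜 := ℂ) s n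
  have a2 : ‖α + β + (t : ℂ) • n‖ ≤ ‖α + β‖ + ‖n‖ := (norm_add_le _ _).trans (by
    rw [norm_smul, Complex.norm_real, Real.norm_of_nonneg h0]
    nlinarith [norm_nonneg n])
  have a3 := pow_le_pow_left₀ (norm_nonneg _) a2 2
  have a4 := pow_le_pow_left₀ (norm_nonneg _) (norm_add_le α β) 2
  have a5 : 2 * (⟪s, n⟫_ℂ).re + ‖α + β + (t : ℂ) • n‖ ^ 2 ≤
      ‖s‖ ^ 2 + 3 * ‖n‖ ^ 2 + 4 * ‖α‖ ^ 2 + 4 * ‖β‖ ^ 2 := by
    simp only [RCLike.re_to_complex] at a1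
    nlinarith [sq_nonneg (‖s‖ - ‖n‖), sq_nonneg (‖α + β‖ - ‖n‖), sq_nonneg (‖α‖ - ‖β‖)]
  have := mul_le_mul_of_nonneg_left a5 (sq_nonneg t)
  simp only [RCLike.re_to_complex, Complex.re_ofReal_mul, Complex.add_re]
  linarith

theorem dil {b : HilbertBasis ι ℂ H} {J W : M3 →ₗ[ℂ] (H →L[ℂ] H)} (hJ : Iso b 4 J) (hW : Iso b 4 W)
    {t : ℝ} (h0 : 0 ≤ t) (h1 : t ≤ 1) :
    ∑ i, Q b 4 (J (sg i) + (t : ℂ) • W (ee i)) ≤ ENNReal.ofReal (6 + 9 * t + 35 * t ^ 2) := by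
  have d := fun {i j} => hW.dE four_pos (by norm_num) (i := i) (j := j)
  have o := o3 (d (show (0 : Fin 3) ≠ 1 by decide)) (d (show (0 : Fin 3) ≠ 2 by decide))
    (d (show (1 : Fin 3) ≠ 2 by decide))
  have s := hJ.dS four_pos (by norm_num)
  have q := hs4 b (W (ee 0) + W (ee 1) + W (ee 2)) (J pp)
  have bs : Bd (fun w => ‖adjoint (J pp) (J pp (b w))‖ ^ 2) 2 := (Q_four b _).symm.trans_le (hJ _ _ ok4).le
  have bn : ∀ i, Bd (fun w => ‖adjoint (W (ee i)) (W (ee i) (b w))‖ ^ 2) 1 := fun i =>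
    (Q_four b _).symm.trans_le (hW _ _ (ok1 i)).le
  have e : ∀ X : Fin 3 → H →L[ℂ] H, Q b 2 (∑ i, adjoint (W (ee i)) ∘L X i) =
      ∑ i, Q b 2 (adjoint (W (ee i)) ∘L X i) := fun X => by
    simp only [Q_two, Fin.sum_univ_three, add_apply, comp_apply, o, ← ENNReal.tsum_add]
    exact tsum_congr fun w => by
      rw [ENNReal.ofReal_add (by positivity) (by positivity),
        ENNReal.ofReal_add (by positivity) (by positivity)]
  have q' : ∑ i, Q b 2 (adjoint (W (ee i)) ∘L J (sg i)) ≤ ENNReal.ofReal (5 / 2) := by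
    rw [hJ _ _ ok4, show Q b 4 _ = _ by rw [← map_add, ← map_add, hW _ _ ok3]] at q
    simp only [fun i => Q_cg b (A := adjoint (W (ee i))) (s i).2, ← e]
    rw [← ENNReal.mul_le_mul_iff_right two_ne_zero (by simp)]
    refine le_trans (le_of_eq ?_) (q.trans_eq ?_)
    · simp [Fin.sum_univ_three, add_comp]
    · rw [← ENNReal.ofReal_add, ← ENNReal.ofReal_ofNat 2, ← ENNReal.ofReal_mul] <;> norm_num
  have b1 : Bd (fun w => ‖(∑ i, adjoint (W (ee i)) ∘L J (sg i)) (b w)‖ ^ 2) (5 / 2) :=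
    (Q_two b _).symm.trans_le ((e _).trans_le q')
  have b2 : Bd (fun w => ‖adjoint (∑ i, adjoint (W (ee i)) ∘L J (sg i)) (b w)‖ ^ 2) (5 / 2) :=
    (Q_two b _).symm.trans_le ((Q_adj b b two_pos _).trans_le ((e _).trans_le q'))
  have b3 : Bd (fun w => ∑ i, ‖adjoint (J (sg i)) (W (ee i) (b w))‖ ^ 2) (5 / 2) := by
    refine le_trans (le_of_eq ?_) q'
    simp only [← fun i => Q_adj b b two_pos (adjoint (W (ee i)) ∘L J (sg i))]
    simp only [Q_two, Fin.sum_univ_three, ← ENNReal.tsum_add, adjoint_comp, adjoint_adjoint, comp_apply]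
    exact tsum_congr fun w => by
      rw [ENNReal.ofReal_add (by positivity) (by positivity),
        ENNReal.ofReal_add (by positivity) (by positivity)]
  have := (((bs.mul (c := 3 + 2 * t + 3 * t ^ 2) (by positivity)).add
    (b1.mul (c := t + 4 * t ^ 2) (by positivity)) (by positivity) (by positivity)).add
    ((b2.mul h0).add (b3.mul (c := 4 * t ^ 2) (by positivity)) (by positivity) (by positivity))
    (by positivity) (by positivity)).add (((((bn 0).add (bn 1) zero_le_one zero_le_one).add (bn 2)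
    (by positivity) zero_le_one)).mul (c := 3 * t ^ 2) (by positivity)) (by positivity) (by positivity)
  refine le_trans ?_ (le_trans this (le_of_eq (by congr 1; ring)))
  simp only [Q_four, Fin.sum_univ_three, ← ENNReal.tsum_add]
  refine ENNReal.tsum_le_tsum fun w => ?_
  rw [← ENNReal.ofReal_add (by positivity) (by positivity),
    ← ENNReal.ofReal_add (by positivity) (by positivity)]
  refine ENNReal.ofReal_le_ofReal ?_
  have k : ∀ i, adjoint (J (sg i) + (t : ℂ) • W (ee i)) ((J (sg i) + (t : ℂ) • W (ee i)) (b w)) =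
      adjoint (J pp) (J pp (b w)) + (t : ℂ) • (adjoint (J (sg i)) (W (ee i) (b w)) +
        adjoint (W (ee i)) (J (sg i) (b w))) + (t : ℂ) • (t : ℂ) • adjoint (W (ee i)) (W (ee i) (b w)) :=
    fun i => by
      have := congr($((s i).1) (b w))
      simp only [comp_apply] at this
      rw [map_add, LinearIsometryEquiv.map_smulₛₗ, Complex.conj_ofReal, ← this]
      simp only [add_apply, smul_apply, map_add, map_smul, smul_add]
      abel
  rw [k, k, k]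
  simp only [map_add, adjoint_comp, adjoint_adjoint, add_apply, comp_apply]
  have p := fun i => pw (adjoint (J pp) (J pp (b w))) (adjoint (J (sg i)) (W (ee i) (b w)))
    (adjoint (W (ee i)) (J (sg i) (b w))) (adjoint (W (ee i)) (W (ee i) (b w))) h0 h1
  have p0 := p 0
  have p1 := p 1
  have p2 := p 2
  have o' := o (J (sg 0) (b w)) (J (sg 1) (b w)) (J (sg 2) (b w))
  generalize adjoint (J pp) (J pp (b w)) = S, adjoint (J (sg 0)) (W (ee 0) (b w)) = α0,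
    adjoint (J (sg 1)) (W (ee 1) (b w)) = α1, adjoint (J (sg 2)) (W (ee 2) (b w)) = α2,
    adjoint (W (ee 0)) (J (sg 0) (b w)) = β0, adjoint (W (ee 1)) (J (sg 1) (b w)) = β1,
    adjoint (W (ee 2)) (J (sg 2) (b w)) = β2 at p0 p1 p2 o' ⊢
  have c1 := re_inner_le_norm (𝕜 := ℂ) S (α0 + α1 + α2)
  have c2 := re_inner_le_norm (𝕜 := ℂ) S (β0 + β1 + β2)
  simp only [inner_add_right, RCLike.re_to_complex, Complex.add_re] at c1 c2 p0 p1 p2
  have c3 := mul_nonneg h0 (sq_nonneg (‖S‖ - ‖α0 + α1 + α2‖))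
  have c4 := mul_nonneg h0 (sq_nonneg (‖S‖ - ‖β0 + β1 + β2‖))
  have c5 := mul_le_mul_of_nonneg_left c1 h0
  have c6 := mul_le_mul_of_nonneg_left c2 h0
  have c7 := congrArg (t ^ 2 * ·) o'
  linarith

theorem nd (b : HilbertBasis ℕ ℂ H) : ∃ T : (H →L[ℂ] H) →ₗ[ℂ] (H →L[ℂ] H),
    (∀ x, Q b 4 (T x) ≤ Q b 4 x) ∧ (∀ x, Q b 1 (T x) ≤ Q b 1 x) ∧ (∀ x, ‖T x‖ ≤ ‖x‖) ∧
    ¬ ∃ J P U : (H →L[ℂ] H) →ₗ[ℂ] (H →L[ℂ] H), (∀ x, Q b 4 x < ⊤ → Q b 4 (J x) = Q b 4 x) ∧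
      (∀ y, Q b 4 y < ⊤ → ∃ x, Q b 4 x < ⊤ ∧ P y = J x) ∧ (∀ x, Q b 4 x < ⊤ → P (J x) = J x) ∧
      (∀ y, Q b 4 y < ⊤ → Q b 4 (P y) ≤ Q b 4 y) ∧ (∀ x, Q b 4 x < ⊤ → Q b 4 (U x) = Q b 4 x) ∧
      (∀ n : ℕ, ∀ x, Q b 4 x < ⊤ → P ((U ^ n) (J x)) = J ((T ^ n) x)) := by
  obtain ⟨φ, -⟩ : ∃ _ : Fin 3 ↪ ℕ, True := ⟨Fin.valEmbedding, trivial⟩
  have k : ∀ x, ‖TT (b ∘ φ) (2 / 5) ee sg x‖ ≤ ‖x‖ ∧
      ∀ p, 1 ≤ p → Q b p (TT (b ∘ φ) (2 / 5) ee sg x) ≤ Q b p x := fun x => by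
    rw [TT_ap]
    exact ctr b φ (hsb (on b φ) (c := 2 / 5) (by norm_num) x).1
  have f := Qem b φ four_pos
  refine ⟨TT (b ∘ φ) (2 / 5) ee sg, fun x => (k x).2 4 (by norm_num), fun x => (k x).2 1 le_rfl,
    fun x => (k x).1, ?_⟩
  rintro ⟨J, P, U, h1, -, h3, h4, h5, h6⟩
  have i1 : Iso b 4 (J ∘ₗ em (b ∘ φ)) := fun m r o => (h1 _ (f m)).trans (o.2 ▸ Qpi b φ four_pos o.1)
  have i2 : Iso b 4 (U ∘ₗ J ∘ₗ em (b ∘ φ)) := fun m r o =>
    (h5 _ ((h1 _ (f m)).trans_lt (f m))).trans (i1 m r o)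
  have d := dil i1 i2 (t := 1 / 100) (by norm_num) (by norm_num)
  have e : ∀ i, ENNReal.ofReal ((251 / 250) ^ 4 * 2) ≤ Q b 4 ((J ∘ₗ em (b ∘ φ)) (sg i) +
      ((1 / 100 : ℝ) : ℂ) • (U ∘ₗ J ∘ₗ em (b ∘ φ)) (ee i)) := fun i => by
    refine le_trans (le_of_eq ?_) (h4 _ ((Finset.single_le_sum (fun _ _ => zero_le)
      (Finset.mem_univ i)).trans_lt (d.trans_lt ENNReal.ofReal_lt_top)))
    have a := h6 1 _ (f (ee i))
    have c : TT (b ∘ φ) (2 / 5) ee sg (em (b ∘ φ) (ee i)) = (2 / 5 : ℂ) • em (b ∘ φ) (sg i) := by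
      rw [TT_ap, ← map_smul]
      simp only [t3_em (on b φ)]
      fin_cases i <;> simp [ee, Fin.sum_univ_three]
    simp only [pow_one, c] at a
    simp only [LinearMap.comp_apply, map_add, map_smul, h3 _ (f _), a, smul_smul]
    nth_rw 1 [← one_smul ℂ (J _)]
    rw [← add_smul, Q_smul b four_pos, show Q b 4 (J _) = _ from i1 _ _ (ok5 i),
      ← ENNReal.ofReal_mul (by positivity), show (1 + ((1 / 100 : ℝ) : ℂ) * (2 / 5)) =
        ((251 / 250 : ℝ) : ℂ) by push_cast; norm_num, Complex.norm_real]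
    norm_num
  have := (Finset.sum_le_sum fun i _ => e i).trans d
  rw [← ENNReal.ofReal_sum_of_nonneg fun _ _ => by positivity,
    ENNReal.ofReal_le_ofReal_iff (by positivity)] at this
  norm_num at this

end Pool.Agent.H.MP_fc6e23_an
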